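import Pool.Agent.Work.MP_a2bf38_gt.Fu.X.LocComp
import Mathlib
import Pool.Agent.Work.MP_a2bf38_gt.Fu.Ext.MP_0e9e72_an.SCVA
import Pool.Agent.Work.MP_a2bf38_gt.Fu.W.GeoDefs
import Pool.Agent.Work.MP_a2bf38_gt.Fu.W.Lift

section

/-!
# Cones and their curves
-/

open scoped ContDiff ENNReal ComplexOrder Topology
open Set Filter Pool.Agent.ToricKRF Pool.Agent.ToricKRF.G Pool.Agent.KRFS Pool.Agent.KRFF
  Pool.Agent.KRFZ

namespace Pool.Agent.KRFAl

/-- `∑ |v i|^2` -/
noncomputable def nr {ι : Type} [Fintype ι] (v : ι → ℂ) : ℝ := ∑ i, ‖v i‖ ^ 2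

/-- `V` is the set of the zeros of homogeneous polynomials of degree at most `d`. -/
def IsCone {L : ℕ} (d : ℕ) (V : Set (Fin (L + 1) → ℂ)) : Prop :=
  ∃ S : Set (MvPolynomial (Fin (L + 1)) ℂ), (∀ Q ∈ S, ∃ k ≤ d, Q.IsHomogeneous k) ∧
    V = {y | ∀ Q ∈ S, MvPolynomial.eval y Q = 0}

/-- An unordered `D`-tuple `Z s` of points of the cone `V`, depending holomorphically on `s ∈ ℂ`.
Its image under a linear map `h` is a line `a₁ + s a₂`. -/
structure IsAlgCurve {L : ℕ} (V : Set (Fin (L + 1) → ℂ)) (R α : ℝ) {D : ℕ}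
    (Z : ℂ → Fin D → Fin (L + 1) → ℂ) : Prop where
  mem : ∀ s i, Z s i ∈ V
  proj : ∃ (k : ℕ) (h : (Fin (L + 1) → ℂ) →ₗ[ℂ] (Fin k → ℂ)) (a₁ a₂ : Fin k → ℂ),
    (∀ v, nr (h v) ≤ nr v) ∧ nr a₁ = 1 ∧ nr a₂ = 1 ∧ ∑ i, starRingEnd ℂ (a₁ i) * a₂ i = 0 ∧
      ∀ s i, h (Z s i) = a₁ + s • a₂ ∧ nr (Z s i) ≤ R * nr (h (Z s i))
  cont : ∀ s, ∀ ε > 0, ∀ᶠ s' in 𝓝 s, ∃ σ : Equiv.Perm (Fin D), ∀ i, ‖Z s' (σ i) - Z s i‖ ≤ ε
  holder : ∀ s s', ‖s'‖ ≤ 1 → ‖s - s'‖ ≤ 1 → ∃ σ : Equiv.Perm (Fin D), ∀ i,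
    ‖Z s (σ i) - Z s' i‖ ≤ R * ‖s - s'‖ ^ α
  sect : ∃ E : Set ℂ, (∀ s, ∃ r > 0, ∀ s' ∈ E, s' ≠ s → r ≤ ‖s' - s‖) ∧ ∀ s ∉ E,
    ∃ (r : ℝ) (G : Fin D → ℂ → Fin (L + 1) → ℂ), 0 < r ∧
      (∀ i, DifferentiableOn ℂ (G i) (Metric.ball s r)) ∧
      ∀ s' ∈ Metric.ball s r, ∃ σ : Equiv.Perm (Fin D), ∀ i, Z s' (σ i) = G i s'

/-- The interface between the algebra and the geometry. -/
def HasAlgCurves (L d : ℕ) : Prop := ∃ (D₀ : ℕ) (R α : ℝ), 1 ≤ R ∧ 0 < α ∧
  ∀ V : Set (Fin (L + 1) → ℂ), IsCone d V →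
    ∃ B : Finset (Fin (L + 1) → ℂ), B.card ≤ D₀ ∧ (∀ b ∈ B, b ∈ V ∧ b ≠ 0) ∧
      ∀ x ∈ V, x ≠ 0 → (∃ b ∈ B, ∃ a : ℂ, x = a • b) ∨
        ∃ (D : ℕ) (Z : ℂ → Fin D → Fin (L + 1) → ℂ) (s₀ s₁ : ℂ), D ≤ D₀ ∧ ‖s₀‖ ≤ 1 ∧ ‖s₁‖ ≤ 1 ∧
          IsAlgCurve V R α Z ∧ (∀ i, ∃ b ∈ B, ∃ a : ℂ, Z s₀ i = a • b) ∧ ∃ i, ∃ a : ℂ, x = a • Z s₁ i

/-- `HasCurves` for the fibres over the set `A` -/
def HasCurvesOn {M Z : Type} [MetricSpace M] {n : ℕ} {κ : Type}
    (e : κ → OpenPartialHomeomorph M (Cn n)) (f : M → Z) (ψ : κ → ℝ × Cn n → ℝ) (A : Set Z) :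
    Prop := ∃ (D₀ : ℕ) (C α : ℝ), 0 ≤ C ∧ 0 < α ∧ ∀ z ∈ A, ∀ l,
  1 ≤ l → ∃ B : Finset M, B.card ≤ D₀ ∧ (∀ p ∈ B, f p = z) ∧ ∀ p, f p = z →
    ∃ (D : ℕ) (γ : ℂ → Fin D → M) (ρ : M → ℝ) (s₀ s₁ : ℂ), D ≤ D₀ ∧ ‖s₀‖ ≤ 1 ∧ ‖s₁‖ ≤ 1 ∧
      (∀ i, γ s₀ i ∈ B) ∧ (∃ i, γ s₁ i = p) ∧ IsCurve e ψ (f ⁻¹' {z}) C l α γ ρ s₀ s₁

end Pool.Agent.KRFAl

end

section

/-!
# The disc through two lines
-/

open scoped ContDiff ENNReal ComplexOrder Topology
open Set Filter

namespace Pool.Agent.KRFAl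

namespace Lines

variable {k : ℕ}

/-- the Hermitian product -/
noncomputable def ip (v w : Fin k → ℂ) : ℂ := ∑ i, starRingEnd ℂ (v i) * w i

theorem ip_self (v : Fin k → ℂ) : ip v v = (nr v : ℂ) := by
  unfold ip nr
  push_cast
  refine Finset.sum_congr rfl fun i _ => ?_
  rw [mul_comm, Complex.mul_conj, Complex.normSq_eq_norm_sq]
  push_cast
  rfl

theorem ip_conj (v w : Fin k → ℂ) : starRingEnd ℂ (ip v w) = ip w v := by
  unfold ip
  rw [map_sum]
  refine Finset.sum_congr rfl fun i _ => ?_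
  rw [map_mul, Complex.conj_conj, mul_comm]

theorem ip_add_right (v w w' : Fin k → ℂ) : ip v (w + w') = ip v w + ip v w' := by
  unfold ip
  rw [← Finset.sum_add_distrib]
  refine Finset.sum_congr rfl fun i _ => ?_
  rw [Pi.add_apply, mul_add]

theorem ip_smul_right (a : ℂ) (v w : Fin k → ℂ) : ip v (a • w) = a * ip v w := by
  unfold ip
  rw [Finset.mul_sum]
  refine Finset.sum_congr rfl fun i _ => ?_
  rw [Pi.smul_apply, smul_eq_mul]
  ring

theorem ip_add_left (v v' w : Fin k → ℂ) : ip (v + v') w = ip v w + ip v' w := by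
  rw [← ip_conj, ip_add_right, map_add, ip_conj, ip_conj]

theorem ip_smul_left (a : ℂ) (v w : Fin k → ℂ) : ip (a • v) w = starRingEnd ℂ a * ip v w := by
  rw [← ip_conj, ip_smul_right, map_mul, ip_conj]

theorem nr_smul (a : ℂ) (v : Fin k → ℂ) : nr (a • v) = ‖a‖ ^ 2 * nr v := by
  unfold nr
  rw [Finset.mul_sum]
  refine Finset.sum_congr rfl fun i _ => ?_
  rw [Pi.smul_apply, smul_eq_mul, norm_mul, mul_pow]

theorem nr_nonneg (v : Fin k → ℂ) : 0 ≤ nr v := Finset.sum_nonneg fun i _ => by positivity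

theorem nr_pos {v : Fin k → ℂ} (hv : v ≠ 0) : 0 < nr v := by
  refine lt_of_le_of_ne (nr_nonneg v) fun h => hv ?_
  have h1 := (Finset.sum_eq_zero_iff_of_nonneg fun i _ => by positivity).1 h.symm
  funext i
  have h2 := h1 i (Finset.mem_univ i)
  simpa using h2

theorem nr_add (v w : Fin k → ℂ) : nr (v + w) = nr v + nr w + 2 * (ip v w).re := by
  have h1 : ((nr (v + w) : ℝ) : ℂ) = (nr v : ℂ) + (nr w : ℂ) + (ip v w + ip w v) := by
    rw [← ip_self, ← ip_self, ← ip_self, ip_add_right, ip_add_left, ip_add_left]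
    ring
  have h2 := congrArg Complex.re h1
  rw [← ip_conj v w] at h2
  simp only [Complex.add_re, Complex.ofReal_re, Complex.conj_re] at h2
  linarith

end Lines

open Lines

/-- `Al/Lines.lean`: two lines in `ℂ^k` and the disc through them -/
theorem lines {k : ℕ} (v w : Fin k → ℂ) (hv : v ≠ 0) (hw : w ≠ 0) (hvw : ∀ a : ℂ, w ≠ a • v) :
    ∃ (a₁ a₂ : Fin k → ℂ) (s₀ s₁ b₀ b₁ : ℂ), nr a₁ = 1 ∧ nr a₂ = 1 ∧
      ∑ i, starRingEnd ℂ (a₁ i) * a₂ i = 0 ∧ ‖s₀‖ ≤ 1 ∧ ‖s₁‖ ≤ 1 ∧ b₀ ≠ 0 ∧ b₁ ≠ 0 ∧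
      a₁ + s₀ • a₂ = b₀ • v ∧ a₁ + s₁ • a₂ = b₁ • w := by
  have hnv := nr_pos hv
  have hnw := nr_pos hw
  obtain ⟨u, hu, hux⟩ := RCLike.exists_norm_eq_mul_self (ip v w)
  set t : ℝ := √(nr v / nr w) with ht
  have ht0 : 0 < t := Real.sqrt_pos.2 (div_pos hnv hnw)
  have ht2 : t ^ 2 * nr w = nr v := by
    rw [ht, Real.sq_sqrt (div_pos hnv hnw).le]
    field_simp
  set c : ℂ := (t : ℂ) * u with hc
  have hcn : ‖c‖ = t := by
    rw [hc, norm_mul, hu, mul_one, Complex.norm_real, Real.norm_of_nonneg ht0.le]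
  have hc0 : c ≠ 0 := by
    rw [← norm_pos_iff, hcn]
    exact ht0
  set w' : Fin k → ℂ := c • w with hw'
  have hnw' : nr w' = nr v := by rw [hw', nr_smul, hcn, ht2]
  have hip : ip v w' = ((t * ‖ip v w‖ : ℝ) : ℂ) := by
    rw [hw', ip_smul_right, hc, mul_assoc]
    have : u * ip v w = ((‖ip v w‖ : ℝ) : ℂ) := hux.symm
    rw [this]
    push_cast
    rfl
  have hip' : ip w' v = ip v w' := by
    rw [← ip_conj, hip, Complex.conj_ofReal]
  set ρ : ℝ := t * ‖ip v w‖ with hρ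
  have hρ0 : 0 ≤ ρ := by positivity
  set m : Fin k → ℂ := v + w' with hm
  set d : Fin k → ℂ := v + (-1 : ℂ) • w' with hd
  have hm0 : m ≠ 0 := fun h => by
    have h1 : w' = (-1 : ℂ) • v := by
      rw [neg_smul, one_smul]
      exact eq_neg_of_add_eq_zero_right h
    refine hvw (c⁻¹ * (-1)) ?_
    rw [mul_smul, ← h1, hw', smul_smul, inv_mul_cancel₀ hc0, one_smul]
  have hd0 : d ≠ 0 := fun h => by
    have h1 : w' = v := by
      rw [hd, neg_smul, one_smul, ← sub_eq_add_neg, sub_eq_zero] at h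
      exact h.symm
    refine hvw c⁻¹ ?_
    rw [← h1, hw', smul_smul, inv_mul_cancel₀ hc0, one_smul]
  have hnm : nr m = 2 * (nr v + ρ) := by
    rw [hm, nr_add, hnw', hip, Complex.ofReal_re]
    ring
  have hnd : nr d = 2 * (nr v - ρ) := by
    rw [hd, nr_add, nr_smul, hnw', ip_smul_right, hip]
    simp
    ring
  have hmd : ip m d = 0 := by
    rw [hm, hd, ip_add_left, ip_add_right, ip_add_right, ip_smul_right (-1) v w',
      ip_smul_right (-1) w' w', hip', ip_self, ip_self, hnw']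
    ring
  have hM := nr_pos hm0
  have hD := nr_pos hd0
  set M : ℝ := √(nr m) with hMdef
  set N : ℝ := √(nr d) with hNdef
  have hM0 : 0 < M := Real.sqrt_pos.2 hM
  have hN0 : 0 < N := Real.sqrt_pos.2 hD
  have hM2 : M ^ 2 = nr m := Real.sq_sqrt hM.le
  have hN2 : N ^ 2 = nr d := Real.sq_sqrt hD.le
  have hNM : N ≤ M := Real.sqrt_le_sqrt (by rw [hnm, hnd]; linarith)
  have hMc : (M : ℂ) ≠ 0 := by exact_mod_cast hM0.ne'
  have hNc : (N : ℂ) ≠ 0 := by exact_mod_cast hN0.ne'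
  have hnrM : ‖((M : ℂ)⁻¹)‖ ^ 2 * nr m = 1 := by
    rw [norm_inv, Complex.norm_real, Real.norm_of_nonneg hM0.le, ← hM2]
    field_simp
  have hnrN : ‖((N : ℂ)⁻¹)‖ ^ 2 * nr d = 1 := by
    rw [norm_inv, Complex.norm_real, Real.norm_of_nonneg hN0.le, ← hN2]
    field_simp
  have hs : ‖((N / M : ℝ) : ℂ)‖ ≤ 1 := by
    rw [Complex.norm_real, Real.norm_of_nonneg (by positivity), div_le_one hM0]
    exact hNM
  refine ⟨(M : ℂ)⁻¹ • m, (N : ℂ)⁻¹ • d, ((N / M : ℝ) : ℂ), -((N / M : ℝ) : ℂ), 2 * (M : ℂ)⁻¹,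
    2 * (M : ℂ)⁻¹ * c, ?_, ?_, ?_, hs, by rw [norm_neg]; exact hs, ?_, ?_, ?_, ?_⟩
  · rw [nr_smul, hnrM]
  · rw [nr_smul, hnrN]
  · have h1 : ip ((M : ℂ)⁻¹ • m) ((N : ℂ)⁻¹ • d) = 0 := by
      rw [ip_smul_left, ip_smul_right, hmd]
      ring
    exact h1
  · exact mul_ne_zero two_ne_zero (inv_ne_zero hMc)
  · exact mul_ne_zero (mul_ne_zero two_ne_zero (inv_ne_zero hMc)) hc0
  · funext i
    simp only [Pi.add_apply, Pi.smul_apply, smul_eq_mul, hm, hd]
    push_cast
    field_simp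
    ring
  · funext i
    simp only [Pi.add_apply, Pi.smul_apply, smul_eq_mul, hm, hd, hw']
    push_cast
    field_simp
    ring

end Pool.Agent.KRFAl

end

section

/-!
# Matching of the roots of two monic polynomials with close values

`match_roots`: if `∏ (z - a i)` and `∏ (z - b i)` are within `δ` on the disc of radius `ρ`, then the
unordered tuples `a` and `b` are within `(4 ρ)^m δ^α`.  `match_points`: the same for points of `ℂ^N`
(or of any product), tested with enough linear forms.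
-/

open Finset

namespace Pool.Agent.KRFY

/-- division of both polynomials by a linear factor -/
theorem divide_step {n : ℕ} {a b : Fin n → ℂ} {α β : ℂ} {ρ δ ε : ℝ} (hρ : 1 ≤ ρ)
    (hα : ‖α‖ ≤ ρ - 1) (hb : ∀ i, ‖b i‖ ≤ ρ - 1) (hαβ : ‖α - β‖ ≤ ε)
    (h : ∀ z : ℂ, ‖z‖ ≤ ρ → ‖(z - α) * ∏ i, (z - a i) - (z - β) * ∏ i, (z - b i)‖ ≤ δ) :
    ∀ z : ℂ, ‖z‖ ≤ ρ → ‖∏ i, (z - a i) - ∏ i, (z - b i)‖ ≤ δ + ε * (2 * ρ) ^ n := by
  have hε : 0 ≤ ε := (norm_nonneg _).trans hαβ
  have hfr : ∀ z ∈ frontier (Metric.ball (0 : ℂ) ρ),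
      ‖∏ i, (z - a i) - ∏ i, (z - b i)‖ ≤ δ + ε * (2 * ρ) ^ n := by
    intro z hz
    rw [frontier_ball (0 : ℂ) (by linarith), mem_sphere_zero_iff_norm] at hz
    have h1 : 1 ≤ ‖z - α‖ := by
      have := norm_sub_norm_le z α
      linarith
    have h2 : ‖∏ i, (z - b i)‖ ≤ (2 * ρ) ^ n := by
      rw [norm_prod]
      calc ∏ i, ‖z - b i‖ ≤ ∏ _i : Fin n, (2 * ρ) :=
            prod_le_prod (fun _ _ => norm_nonneg _) fun i _ => by
              have := norm_sub_le z (b i)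
              have := hb i
              linarith
        _ = (2 * ρ) ^ n := by simp
    have h3 : (z - α) * (∏ i, (z - a i) - ∏ i, (z - b i)) =
        ((z - α) * ∏ i, (z - a i) - (z - β) * ∏ i, (z - b i)) + (α - β) * ∏ i, (z - b i) := by
      ring
    have h4 : ‖z - α‖ * ‖∏ i, (z - a i) - ∏ i, (z - b i)‖ ≤ δ + ε * (2 * ρ) ^ n := by
      rw [← norm_mul, h3]
      refine (norm_add_le _ _).trans (add_le_add (h z hz.le) ?_)
      rw [norm_mul]
      exact mul_le_mul hαβ h2 (norm_nonneg _) hε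
    calc ‖∏ i, (z - a i) - ∏ i, (z - b i)‖
        = 1 * ‖∏ i, (z - a i) - ∏ i, (z - b i)‖ := (one_mul _).symm
      _ ≤ ‖z - α‖ * ‖∏ i, (z - a i) - ∏ i, (z - b i)‖ :=
          mul_le_mul_of_nonneg_right h1 (norm_nonneg _)
      _ ≤ _ := h4
  intro z hz
  have hd : DiffContOnCl ℂ (fun z : ℂ => ∏ i, (z - a i) - ∏ i, (z - b i))
      (Metric.ball (0 : ℂ) ρ) := by
    apply Differentiable.diffContOnCl
    fun_prop
  refine Complex.norm_le_of_forall_mem_frontier_norm_le (U := Metric.ball (0 : ℂ) ρ)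
    Metric.isBounded_ball hd hfr ?_
  rw [closure_ball (0 : ℂ) (by linarith)]
  simpa using hz

/-- one root is close to a root of the other polynomial -/
theorem exists_near {n : ℕ} {a : Fin (n + 1) → ℂ} {β : ℂ} {δ : ℝ} (hδ : 0 ≤ δ)
    (h : ‖∏ i, (β - a i)‖ ≤ δ) : ∃ i, ‖a i - β‖ ≤ δ ^ ((1 : ℝ) / (n + 1)) := by
  by_contra! hc
  have h1 : δ < ∏ i, ‖β - a i‖ := by
    calc δ = (δ ^ ((1 : ℝ) / (n + 1))) ^ (n + 1) := by
          rw [← Real.rpow_natCast, ← Real.rpow_mul hδ]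
          push_cast
          rw [one_div, inv_mul_cancel₀ (by positivity), Real.rpow_one]
      _ = ∏ _i : Fin (n + 1), δ ^ ((1 : ℝ) / (n + 1)) := by simp
      _ < ∏ i, ‖β - a i‖ := by
          rcases hδ.eq_or_lt with rfl | hδ'
          · have : (0 : ℝ) ^ ((1 : ℝ) / (n + 1)) = 0 := Real.zero_rpow (by positivity)
            rw [this]
            simp only [prod_const, card_univ, Fintype.card_fin]
            rw [zero_pow (by omega)]
            refine prod_pos fun i _ => ?_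
            have := hc i
            rw [‹(0 : ℝ) ^ ((1 : ℝ) / (n + 1)) = 0›] at this
            rwa [norm_sub_rev] at this
          · refine prod_lt_prod_of_nonempty (fun i _ => by positivity) (fun i _ => ?_)
              univ_nonempty
            have := hc i
            rwa [norm_sub_rev] at this
  rw [norm_prod] at h
  linarith

/-- The roots of two monic polynomials with close values can be matched. -/
theorem match_roots (D : ℕ) : ∃ (m : ℕ) (α : ℝ), 0 < α ∧ α ≤ 1 ∧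
    ∀ (ρ δ : ℝ) (a b : Fin D → ℂ), 1 ≤ ρ → 0 ≤ δ → δ ≤ 1 → (∀ i, ‖a i‖ ≤ ρ - 1) →
      (∀ i, ‖b i‖ ≤ ρ - 1) →
      (∀ z : ℂ, ‖z‖ ≤ ρ → ‖∏ i, (z - a i) - ∏ i, (z - b i)‖ ≤ δ) →
      ∃ σ : Equiv.Perm (Fin D), ∀ i, ‖a (σ i) - b i‖ ≤ (4 * ρ) ^ m * δ ^ α := by
  induction D with
  | zero => exact ⟨0, 1, one_pos, le_rfl, fun ρ δ a b _ _ _ _ _ _ => ⟨1, fun i => i.elim0⟩⟩
  | succ n ih =>
    obtain ⟨m, α, hα, hα1, ih⟩ := ih
    refine ⟨m + n + 3, α / (n + 1), by positivity, ?_, ?_⟩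
    · rw [div_le_one (by positivity)]
      have : (0 : ℝ) ≤ n := Nat.cast_nonneg n
      linarith
    intro ρ δ a b hρ hδ hδ1 ha hb h
    have hρ4 : 1 ≤ 4 * ρ := by linarith
    -- a root of the first polynomial near the root `b 0`
    obtain ⟨i₀, hi₀⟩ : ∃ i, ‖a i - b 0‖ ≤ δ ^ ((1 : ℝ) / (n + 1)) := by
      refine exists_near hδ ?_
      have h1 := h (b 0) (by have := hb 0; linarith)
      have h2 : ∏ i, (b 0 - b i) = 0 := prod_eq_zero (mem_univ 0) (by simp)
      rwa [h2, sub_zero] at h1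
    set τ : Equiv.Perm (Fin (n + 1)) := Equiv.swap 0 i₀ with hτ
    set ε : ℝ := δ ^ ((1 : ℝ) / (n + 1)) with hε
    have hε0 : 0 ≤ ε := by positivity
    have hε1 : ε ≤ 1 := Real.rpow_le_one hδ hδ1 (by positivity)
    have hδε : δ ≤ ε := by
      calc δ = δ ^ (1 : ℝ) := (Real.rpow_one δ).symm
        _ ≤ δ ^ ((1 : ℝ) / (n + 1)) := by
          rcases hδ.eq_or_lt with rfl | hδ'
          · rw [Real.rpow_one]; positivity
          · refine Real.rpow_le_rpow_of_exponent_ge hδ' hδ1 ?_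
            rw [div_le_one (by positivity)]
            have : (0 : ℝ) ≤ n := Nat.cast_nonneg n
            linarith
    have hτ0 : τ 0 = i₀ := Equiv.swap_apply_left 0 i₀
    -- the quotients
    have hq : ∀ z : ℂ, ‖z‖ ≤ ρ →
        ‖∏ i : Fin n, (z - a (τ i.succ)) - ∏ i : Fin n, (z - b i.succ)‖ ≤
          δ + ε * (2 * ρ) ^ n := by
      refine divide_step (α := a i₀) (β := b 0) hρ (ha i₀) (fun i => hb i.succ) hi₀ ?_
      intro z hz
      have h1 := h z hz
      rw [← Equiv.prod_comp τ (fun i => z - a i), Fin.prod_univ_succ, Fin.prod_univ_succ, hτ0] at h1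
      exact h1
    set δ' : ℝ := δ + ε * (2 * ρ) ^ n with hδ'
    have hδ'0 : 0 ≤ δ' := by positivity
    have hδ'le : δ' ≤ (4 * ρ) ^ (n + 1) * ε := by
      have h1 : (1 : ℝ) ≤ (4 * ρ) ^ n := one_le_pow₀ hρ4
      have h2 : (2 * ρ) ^ n ≤ (4 * ρ) ^ n := pow_le_pow_left₀ (by linarith) (by linarith) n
      have h3 : (4 * ρ) ^ (n + 1) = (4 * ρ) ^ n * (4 * ρ) := pow_succ _ _
      rw [hδ', h3]
      nlinarith [mul_le_mul_of_nonneg_left h2 hε0, mul_le_mul_of_nonneg_left h1 hε0,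
        mul_nonneg hε0 (by positivity : (0 : ℝ) ≤ (4 * ρ) ^ n)]
    have hfin : δ' ^ α ≤ (4 * ρ) ^ (n + 1) * δ ^ (α / (n + 1)) := by
      calc δ' ^ α ≤ ((4 * ρ) ^ (n + 1) * ε) ^ α := Real.rpow_le_rpow hδ'0 hδ'le hα.le
        _ = ((4 * ρ) ^ (n + 1)) ^ α * ε ^ α := Real.mul_rpow (by positivity) hε0
        _ ≤ (4 * ρ) ^ (n + 1) * δ ^ (α / (n + 1)) := by
          refine mul_le_mul ?_ ?_ (by positivity) (by positivity)
          · calc ((4 * ρ) ^ (n + 1)) ^ α ≤ ((4 * ρ) ^ (n + 1)) ^ (1 : ℝ) :=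
                Real.rpow_le_rpow_of_exponent_le (one_le_pow₀ hρ4) hα1
              _ = _ := Real.rpow_one _
          · rw [hε, ← Real.rpow_mul hδ]
            exact le_of_eq (by congr 1; ring)
    -- the permutation for the quotients
    obtain ⟨σ, hσ⟩ : ∃ σ : Equiv.Perm (Fin n), ∀ i : Fin n,
        ‖a (τ (σ i).succ) - b i.succ‖ ≤ (4 * ρ) ^ (m + n + 3) * δ ^ (α / (n + 1)) := by
      by_cases h1 : δ' ≤ 1
      · obtain ⟨σ, hσ⟩ := ih ρ δ' (fun i => a (τ i.succ)) (fun i => b i.succ) hρ hδ'0 h1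
          (fun i => ha _) (fun i => hb _) hq
        refine ⟨σ, fun i => (hσ i).trans ?_⟩
        calc (4 * ρ) ^ m * δ' ^ α ≤ (4 * ρ) ^ m * ((4 * ρ) ^ (n + 1) * δ ^ (α / (n + 1))) :=
              mul_le_mul_of_nonneg_left hfin (by positivity)
          _ = (4 * ρ) ^ (m + n + 1) * δ ^ (α / (n + 1)) := by
              rw [← mul_assoc, ← pow_add]; ring_nf
          _ ≤ _ := mul_le_mul_of_nonneg_right (pow_le_pow_right₀ hρ4 (by omega))
              (by positivity)
      · refine ⟨1, fun i => ?_⟩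
        have h2 : ‖a (τ ((1 : Equiv.Perm (Fin n)) i).succ) - b i.succ‖ ≤ 2 * ρ := by
          refine (norm_sub_le _ _).trans ?_
          have := ha (τ ((1 : Equiv.Perm (Fin n)) i).succ)
          have := hb i.succ
          linarith
        have h3 : 1 ≤ δ' ^ α := Real.one_le_rpow (not_le.1 h1).le hα.le
        calc ‖a (τ ((1 : Equiv.Perm (Fin n)) i).succ) - b i.succ‖ ≤ 2 * ρ := h2
          _ ≤ (4 * ρ) * 1 := by linarith
          _ ≤ (4 * ρ) * ((4 * ρ) ^ (n + 1) * δ ^ (α / (n + 1))) :=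
              mul_le_mul_of_nonneg_left (h3.trans hfin) (by positivity)
          _ = (4 * ρ) ^ (n + 2) * δ ^ (α / (n + 1)) := by
              rw [← mul_assoc, ← pow_succ']
          _ ≤ _ := mul_le_mul_of_nonneg_right (pow_le_pow_right₀ hρ4 (by omega))
              (by positivity)
    -- the permutation
    refine ⟨τ * (Equiv.Perm.decomposeFin.symm (0, σ)), fun i => ?_⟩
    refine Fin.cases ?_ (fun i => ?_) i
    · rw [Equiv.Perm.mul_apply, Equiv.Perm.decomposeFin_symm_apply_zero, hτ0]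
      refine hi₀.trans ?_
      have h1 : ε ≤ δ ^ (α / (n + 1)) := by
        rw [hε]
        rcases hδ.eq_or_lt with rfl | hδ'
        · rw [Real.zero_rpow (by positivity), Real.zero_rpow (by positivity)]
        · exact Real.rpow_le_rpow_of_exponent_ge hδ' hδ1
            (div_le_div_of_nonneg_right hα1 (by positivity))
      calc ε ≤ δ ^ (α / (n + 1)) := h1
        _ = 1 * δ ^ (α / (n + 1)) := (one_mul _).symm
        _ ≤ _ := mul_le_mul_of_nonneg_right (one_le_pow₀ hρ4) (by positivity)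
    · rw [Equiv.Perm.mul_apply, Equiv.Perm.decomposeFin_symm_apply_succ, Equiv.swap_self]
      exact hσ i

/-- the linear form `∑ k^j x_j` -/
def vf {N : ℕ} (k : ℕ) (x : Fin N → ℂ) : ℂ := ∑ j : Fin N, (k : ℂ) ^ (j : ℕ) * x j

theorem vf_sub {N : ℕ} (k : ℕ) (x y : Fin N → ℂ) : vf k (x - y) = vf k x - vf k y := by
  simp only [vf, Pi.sub_apply, mul_sub, sum_sub_distrib]

theorem norm_vf_le {N : ℕ} {k K : ℕ} (hk : k ≤ K) (hK : 1 ≤ K) {x : Fin N → ℂ} {ρ : ℝ}
    (hx : ∀ j, ‖x j‖ ≤ ρ) : ‖vf k x‖ ≤ N * (K : ℝ) ^ N * ρ := by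
  have hK' : (1 : ℝ) ≤ K := by exact_mod_cast hK
  have hkK : (k : ℝ) ≤ K := by exact_mod_cast hk
  calc ‖vf k x‖ ≤ ∑ j : Fin N, ‖(k : ℂ) ^ (j : ℕ) * x j‖ := norm_sum_le _ _
    _ ≤ ∑ _j : Fin N, (K : ℝ) ^ N * ρ := by
        refine sum_le_sum fun j _ => ?_
        have hρ : 0 ≤ ρ := (norm_nonneg _).trans (hx j)
        rw [norm_mul, norm_pow, Complex.norm_natCast]
        refine mul_le_mul ?_ (hx j) (norm_nonneg _) (by positivity)
        exact (pow_le_pow_left₀ (Nat.cast_nonneg k) hkK _).trans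
          (pow_le_pow_right₀ hK' j.2.le)
    _ = N * (K : ℝ) ^ N * ρ := by simp [mul_assoc]

/-- Enough linear forms determine a permutation. -/
theorem match_points (D N : ℕ) : ∃ C : ℝ, 0 < C ∧ ∀ (x y : Fin D → Fin N → ℂ) (ε : ℝ), 0 ≤ ε →
    (∀ k < N * D.factorial + 1, ∃ σ : Equiv.Perm (Fin D), ∀ i,
      ‖vf k (x (σ i)) - vf k (y i)‖ ≤ ε) →
    ∃ σ : Equiv.Perm (Fin D), ∀ i j, ‖x (σ i) j - y i j‖ ≤ C * ε := by
  classical
  set K := N * D.factorial + 1 with hK
  let V : (Fin N → Fin K) → Matrix (Fin N) (Fin N) ℂ :=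
    fun g => Matrix.vandermonde fun r => ((g r : ℕ) : ℂ)
  refine ⟨1 + ∑ g : Fin N → Fin K, ∑ j, ∑ r, ‖(V g)⁻¹ j r‖, by positivity, ?_⟩
  intro x y ε hε h
  choose σ hσ using fun k : Fin K => h k k.2
  obtain ⟨τ, -, hτ⟩ := Finset.exists_lt_card_fiber_of_mul_lt_card_of_maps_to
    (s := (univ : Finset (Fin K))) (t := (univ : Finset (Equiv.Perm (Fin D)))) (f := σ) (n := N)
    (fun _ _ => mem_univ _) (by
      rw [card_univ, card_univ, Fintype.card_perm, Fintype.card_fin, Fintype.card_fin, hK,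
        Nat.mul_comm N]
      omega)
  let g : Fin N → Fin K := fun r => (univ.filter fun k => σ k = τ).orderEmbOfCardLe hτ.le r
  have hg : Function.Injective g := fun r r' h =>
    ((univ.filter fun k => σ k = τ).orderEmbOfCardLe hτ.le).injective h
  have hgτ : ∀ r, σ (g r) = τ := fun r =>
    (mem_filter.1 (Finset.orderEmbOfCardLe_mem _ hτ.le r)).2
  have hdet : IsUnit (V g).det := by
    rw [isUnit_iff_ne_zero]
    refine Matrix.det_vandermonde_ne_zero_iff.2 fun r r' h => hg ?_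
    exact Fin.ext (by exact_mod_cast h)
  refine ⟨τ, fun i j => ?_⟩
  set w : Fin N → ℂ := x (τ i) - y i with hw
  have h1 : ∀ r, ‖((V g).mulVec w) r‖ ≤ ε := by
    intro r
    have h2 : ((V g).mulVec w) r = vf (g r) w := by
      simp [V, Matrix.mulVec, dotProduct, vf, Matrix.vandermonde_apply]
    rw [h2, hw, vf_sub]
    have := hσ (g r) i
    rwa [hgτ r] at this
  have h3 : w = (V g)⁻¹.mulVec ((V g).mulVec w) := by
    rw [Matrix.mulVec_mulVec, Matrix.nonsing_inv_mul _ hdet, Matrix.one_mulVec]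
  calc ‖x (τ i) j - y i j‖ = ‖w j‖ := by rw [hw, Pi.sub_apply]
    _ = ‖∑ r, (V g)⁻¹ j r * ((V g).mulVec w) r‖ := by
        conv_lhs => rw [h3]
        rfl
    _ ≤ ∑ r, ‖(V g)⁻¹ j r‖ * ε := by
        refine (norm_sum_le _ _).trans (sum_le_sum fun r _ => ?_)
        rw [norm_mul]
        exact mul_le_mul_of_nonneg_left (h1 r) (norm_nonneg _)
    _ = (∑ r, ‖(V g)⁻¹ j r‖) * ε := by rw [sum_mul]
    _ ≤ (1 + ∑ g : Fin N → Fin K, ∑ j, ∑ r, ‖(V g)⁻¹ j r‖) * ε := by
        refine mul_le_mul_of_nonneg_right ?_ hε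
        have e1 : ∑ r, ‖(V g)⁻¹ j r‖ ≤ ∑ j, ∑ r, ‖(V g)⁻¹ j r‖ :=
          single_le_sum (f := fun j => ∑ r, ‖(V g)⁻¹ j r‖) (fun _ _ => by positivity)
            (mem_univ j)
        have e2 : ∑ j, ∑ r, ‖(V g)⁻¹ j r‖ ≤ ∑ g : Fin N → Fin K, ∑ j, ∑ r, ‖(V g)⁻¹ j r‖ :=
          single_le_sum (f := fun g => ∑ j, ∑ r, ‖(V g)⁻¹ j r‖) (fun _ _ => by positivity)
            (mem_univ g)
        linarith

/-- Unordered tuples of points of `ℂ^N` whose projections by enough linear forms are the roots of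
close polynomials can be matched. -/
theorem match_tuples (D N : ℕ) : ∃ (m : ℕ) (C α : ℝ), 1 ≤ C ∧ 0 < α ∧ α ≤ 1 ∧
    ∀ (ρ δ : ℝ) (x y : Fin D → Fin N → ℂ), 1 ≤ ρ → 0 ≤ δ → δ ≤ 1 → (∀ i j, ‖x i j‖ ≤ ρ) →
      (∀ i j, ‖y i j‖ ≤ ρ) →
      (∀ k < N * D.factorial + 1, ∀ z : ℂ, ‖z‖ ≤ C * ρ →
        ‖∏ i, (z - vf k (x i)) - ∏ i, (z - vf k (y i))‖ ≤ δ) →
      ∃ σ : Equiv.Perm (Fin D), ∀ i j, ‖x (σ i) j - y i j‖ ≤ C * ρ ^ m * δ ^ α := by
  obtain ⟨m, α, hα, hα1, hm⟩ := match_roots D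
  obtain ⟨C, hC, hmp⟩ := match_points D N
  set K := N * D.factorial + 1 with hK
  set B : ℝ := N * (K : ℝ) ^ N + 1 with hB
  have hB1 : 1 ≤ B := by
    rw [hB]
    have : (0 : ℝ) ≤ N * (K : ℝ) ^ N := by positivity
    linarith
  have hB4 : 1 ≤ (4 * B) ^ m := one_le_pow₀ (by linarith)
  refine ⟨m, B + C * (4 * B) ^ m, α, ?_, hα, hα1, ?_⟩
  · have : 0 ≤ C * (4 * B) ^ m := by positivity
    linarith
  intro ρ δ x y hρ hδ hδ1 hx hy h
  have hbd : ∀ k < K, ∀ w : Fin N → ℂ, (∀ j, ‖w j‖ ≤ ρ) → ‖vf k w‖ ≤ B * ρ - 1 := by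
    intro k hk w hw
    refine (norm_vf_le hk.le (by omega) hw).trans ?_
    rw [hB]
    nlinarith
  have h1 : ∀ k < K, ∃ σ : Equiv.Perm (Fin D), ∀ i,
      ‖vf k (x (σ i)) - vf k (y i)‖ ≤ (4 * (B * ρ)) ^ m * δ ^ α := by
    intro k hk
    refine hm (B * ρ) δ (fun i => vf k (x i)) (fun i => vf k (y i)) (by nlinarith) hδ hδ1
      (fun i => hbd k hk _ (hx i)) (fun i => hbd k hk _ (hy i)) ?_
    intro z hz
    refine h k hk z (hz.trans ?_)
    refine mul_le_mul_of_nonneg_right ?_ (by linarith)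
    have : 0 ≤ C * (4 * B) ^ m := by positivity
    linarith
  obtain ⟨σ, hσ⟩ := hmp x y _ (by positivity) h1
  refine ⟨σ, fun i j => (hσ i j).trans ?_⟩
  calc C * ((4 * (B * ρ)) ^ m * δ ^ α) = (C * (4 * B) ^ m) * ρ ^ m * δ ^ α := by
        rw [← mul_assoc 4 B ρ, mul_pow]; ring
    _ ≤ (B + C * (4 * B) ^ m) * ρ ^ m * δ ^ α := by
        have : 0 ≤ B * (ρ ^ m * δ ^ α) := by positivity
        nlinarith

end Pool.Agent.KRFY

end

section

/-!
# Separating linear forms, and matching of unordered tuples with close polynomials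
-/

open Finset Pool.Agent.KRFY

namespace Pool.Agent.KRFW

/-- The linear form with the coefficients `(k / K)^j`. -/
noncomputable def nd (σ : Type) [Fintype σ] (K k : ℕ) : σ → ℂ :=
  fun j => ((k : ℂ) / K) ^ (Fintype.equivFin σ j : ℕ)

theorem norm_nd_le {σ : Type} [Fintype σ] {K k : ℕ} (hk : k ≤ K) : ‖nd σ K k‖ ≤ 1 := by
  refine (pi_norm_le_iff_of_nonneg zero_le_one).2 fun j => ?_
  have h1 : ‖((k : ℂ) / K)‖ ≤ 1 := by
    rw [norm_div, Complex.norm_natCast, Complex.norm_natCast]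
    exact div_le_one_of_le₀ (by exact_mod_cast hk) (Nat.cast_nonneg K)
  rw [nd, norm_pow]
  exact pow_le_one₀ (norm_nonneg _) h1

/-- A vector is bounded by the values of enough of the forms. -/
theorem exists_inv (σ : Type) [Fintype σ] (K : ℕ) : ∃ C : ℝ, 0 < C ∧
    ∀ (S : Finset (Fin K)), Fintype.card σ ≤ S.card → ∀ (w : σ → ℂ) (ε : ℝ), 0 ≤ ε →
      (∀ k ∈ S, ‖∑ j, nd σ K k j * w j‖ ≤ ε) → ‖w‖ ≤ C * ε := by
  classical
  set N := Fintype.card σ with hN
  let e : σ ≃ Fin N := Fintype.equivFin σ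
  let V : (Fin N → Fin K) → Matrix (Fin N) (Fin N) ℂ :=
    fun g => Matrix.vandermonde fun r => ((g r : ℕ) : ℂ) / K
  refine ⟨1 + ∑ g : Fin N → Fin K, ∑ j, ∑ r, ‖(V g)⁻¹ j r‖, by positivity, ?_⟩
  intro S hS w ε hε h
  let g : Fin N → Fin K := fun r => S.orderEmbOfCardLe hS r
  have hg : Function.Injective g := fun r r' h => (S.orderEmbOfCardLe hS).injective h
  have hgS : ∀ r, g r ∈ S := fun r => Finset.orderEmbOfCardLe_mem _ hS r
  have hdet : IsUnit (V g).det := by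
    rw [isUnit_iff_ne_zero]
    refine Matrix.det_vandermonde_ne_zero_iff.2 fun r r' h => hg ?_
    have hK : (K : ℂ) ≠ 0 := by
      have : 0 < K := lt_of_le_of_lt (Nat.zero_le _) (g r).2
      exact_mod_cast this.ne'
    have h1 : ((g r : ℕ) : ℂ) = ((g r' : ℕ) : ℂ) := (div_left_inj' hK).1 h
    exact Fin.ext (by exact_mod_cast h1)
  set w' : Fin N → ℂ := fun r => w (e.symm r) with hw'
  have h1 : ∀ r, ‖((V g).mulVec w') r‖ ≤ ε := by
    intro r
    have h2 : ((V g).mulVec w') r = ∑ j, nd σ K (g r) j * w j := by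
      rw [← e.symm.sum_comp]
      simp only [V, Matrix.mulVec, dotProduct, Matrix.vandermonde_apply, hw', nd]
      refine sum_congr rfl fun j _ => ?_
      rw [show Fintype.equivFin σ (e.symm j) = j from e.apply_symm_apply j]
    rw [h2]
    exact h _ (hgS r)
  have h3 : w' = (V g)⁻¹.mulVec ((V g).mulVec w') := by
    rw [Matrix.mulVec_mulVec, Matrix.nonsing_inv_mul _ hdet, Matrix.one_mulVec]
  have hsum : 0 ≤ ∑ g : Fin N → Fin K, ∑ j, ∑ r, ‖(V g)⁻¹ j r‖ := by positivity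
  refine (pi_norm_le_iff_of_nonneg (by positivity)).2 fun i => ?_
  set j := e i with hj
  calc ‖w i‖ = ‖w' j‖ := by rw [hw']; simp [hj]
    _ = ‖∑ r, (V g)⁻¹ j r * ((V g).mulVec w') r‖ := by
        conv_lhs => rw [h3]
        rfl
    _ ≤ ∑ r, ‖(V g)⁻¹ j r‖ * ε := by
        refine (norm_sum_le _ _).trans (sum_le_sum fun r _ => ?_)
        rw [norm_mul]
        exact mul_le_mul_of_nonneg_left (h1 r) (norm_nonneg _)
    _ = (∑ r, ‖(V g)⁻¹ j r‖) * ε := by rw [sum_mul]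
    _ ≤ (1 + ∑ g : Fin N → Fin K, ∑ j, ∑ r, ‖(V g)⁻¹ j r‖) * ε := by
        refine mul_le_mul_of_nonneg_right ?_ hε
        have e1 : ∑ r, ‖(V g)⁻¹ j r‖ ≤ ∑ j, ∑ r, ‖(V g)⁻¹ j r‖ :=
          single_le_sum (f := fun j => ∑ r, ‖(V g)⁻¹ j r‖) (fun _ _ => by positivity)
            (mem_univ j)
        have e2 : ∑ j, ∑ r, ‖(V g)⁻¹ j r‖ ≤ ∑ g : Fin N → Fin K, ∑ j, ∑ r, ‖(V g)⁻¹ j r‖ :=
          single_le_sum (f := fun g => ∑ j, ∑ r, ‖(V g)⁻¹ j r‖) (fun _ _ => by positivity)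
            (mem_univ g)
        linarith

/-- a linear form which is large at finitely many vectors -/
theorem exists_sep (D : ℕ) {σ : Type} [Fintype σ] : ∃ c : ℝ, 0 < c ∧ ∀ v : Fin D → σ → ℂ,
    ∃ u : σ → ℂ, ‖u‖ ≤ 2 ∧ ∀ m, c * ‖v m‖ ≤ ‖∑ j, u j * v m j‖ := by
  classical
  set N := Fintype.card σ with hN
  set K := D * N + 1 with hK
  obtain ⟨C, hC, h⟩ := exists_inv σ K
  refine ⟨(2 * C)⁻¹, by positivity, fun v => ?_⟩
  -- the bad forms for `v m`
  let bad : Fin D → Finset (Fin K) := fun m =>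
    univ.filter fun k : Fin K => ‖∑ j, nd σ K k j * v m j‖ < (2 * C)⁻¹ * ‖v m‖
  have hbad : ∀ m, (bad m).card ≤ N := by
    intro m
    by_contra hc
    have h1 := h (bad m) (by omega) (v m) ((2 * C)⁻¹ * ‖v m‖) (by positivity)
      (fun k hk => (mem_filter.1 hk).2.le)
    have h2 : C * ((2 * C)⁻¹ * ‖v m‖) = ‖v m‖ / 2 := by field_simp
    rw [h2] at h1
    have h3 : ‖v m‖ = 0 := by
      have := norm_nonneg (v m)
      linarith
    have h4 : (bad m).Nonempty := card_pos.1 (by omega)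
    obtain ⟨k, hk⟩ := h4
    have h5 := (mem_filter.1 hk).2
    rw [h3, mul_zero] at h5
    exact absurd h5 (not_lt.2 (norm_nonneg _))
  have hcard : ((univ : Finset (Fin D)).biUnion bad).card < K := by
    calc ((univ : Finset (Fin D)).biUnion bad).card ≤ ∑ m : Fin D, (bad m).card := card_biUnion_le
      _ ≤ ∑ _m : Fin D, N := sum_le_sum fun m _ => hbad m
      _ = D * N := by simp
      _ < K := by omega
  obtain ⟨k, hk⟩ : ∃ k : Fin K, k ∉ (univ : Finset (Fin D)).biUnion bad := by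
    by_contra! hc
    have : (univ : Finset (Fin K)) ⊆ (univ : Finset (Fin D)).biUnion bad := fun k _ => hc k
    have := card_le_card this
    rw [card_univ, Fintype.card_fin] at this
    omega
  refine ⟨nd σ K k, (norm_nd_le k.2.le).trans (by norm_num), fun m => ?_⟩
  by_contra! hc
  exact hk (mem_biUnion.2 ⟨m, mem_univ m, mem_filter.2 ⟨mem_univ k, hc⟩⟩)

theorem match_of_close (D : ℕ) (σ : Type) [Fintype σ] : ∃ α : ℝ, 0 < α ∧ ∀ R : ℝ, 1 ≤ R →
    ∃ C : ℝ, 0 ≤ C ∧ ∀ (X X' : Fin D → σ → ℂ) (η : ℝ), 0 ≤ η → η ≤ 1 → (∀ m, ‖X m‖ ≤ R) →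
      (∀ m, ‖X' m‖ ≤ R) →
      (∀ (u : σ → ℂ) (T : ℂ), ‖u‖ ≤ 2 → ‖T‖ ≤ C →
        ‖∏ m, (T - ∑ j, u j * X m j) - ∏ m, (T - ∑ j, u j * X' m j)‖ ≤ η) →
      ∃ π : Equiv.Perm (Fin D), ∀ m, ‖X (π m) - X' m‖ ≤ C * η ^ α := by
  classical
  obtain ⟨p, α, hα, hα1, hp⟩ := match_roots D
  refine ⟨α, hα, fun R hR => ?_⟩
  set N := Fintype.card σ with hN
  set K := N * D.factorial + 1 with hK
  obtain ⟨C, hC, hinv⟩ := exists_inv σ K
  set ρ : ℝ := N * R + 1 with hρ
  have hR0 : 0 ≤ R := zero_le_one.trans hR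
  have hρ1 : 1 ≤ ρ := by
    have : (0 : ℝ) ≤ N * R := by positivity
    linarith
  refine ⟨ρ + C * (4 * ρ) ^ p, by positivity, ?_⟩
  intro X X' η hη hη1 hX hX' h
  have hbd : ∀ k : Fin K, ∀ w : σ → ℂ, ‖w‖ ≤ R → ‖∑ j, nd σ K k j * w j‖ ≤ ρ - 1 := by
    intro k w hw
    calc ‖∑ j, nd σ K k j * w j‖ ≤ ∑ j, ‖nd σ K k j * w j‖ := norm_sum_le _ _
      _ ≤ ∑ _j : σ, R := by
          refine sum_le_sum fun j _ => ?_
          rw [norm_mul]
          calc ‖nd σ K k j‖ * ‖w j‖ ≤ 1 * R :=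
                mul_le_mul ((norm_le_pi_norm _ j).trans (norm_nd_le k.2.le))
                  ((norm_le_pi_norm w j).trans hw) (norm_nonneg _) zero_le_one
            _ = R := one_mul _
      _ = ρ - 1 := by rw [sum_const, card_univ, nsmul_eq_mul, hρ]; ring
  have h1 : ∀ k : Fin K, ∃ τ : Equiv.Perm (Fin D), ∀ m,
      ‖∑ j, nd σ K k j * X (τ m) j - ∑ j, nd σ K k j * X' m j‖ ≤ (4 * ρ) ^ p * η ^ α := by
    intro k
    refine hp ρ η (fun m => ∑ j, nd σ K k j * X m j) (fun m => ∑ j, nd σ K k j * X' m j) hρ1 hη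
      hη1 (fun m => hbd k _ (hX m)) (fun m => hbd k _ (hX' m)) ?_
    intro z hz
    refine h (nd σ K k) z ((norm_nd_le k.2.le).trans (by norm_num)) (hz.trans ?_)
    have : 0 ≤ C * (4 * ρ) ^ p := by positivity
    linarith
  choose τ hτ using h1
  obtain ⟨π, -, hπ⟩ := Finset.exists_lt_card_fiber_of_mul_lt_card_of_maps_to
    (s := (univ : Finset (Fin K))) (t := (univ : Finset (Equiv.Perm (Fin D)))) (f := τ) (n := N)
    (fun _ _ => mem_univ _) (by
      rw [card_univ, card_univ, Fintype.card_perm, Fintype.card_fin, Fintype.card_fin, hK,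
        Nat.mul_comm N]
      omega)
  refine ⟨π, fun m => ?_⟩
  have h2 := hinv (univ.filter fun k => τ k = π) hπ.le (X (π m) - X' m)
    ((4 * ρ) ^ p * η ^ α) (by positivity) (by
      intro k hk
      have h3 : τ k = π := (mem_filter.1 hk).2
      have h4 := hτ k m
      rw [h3] at h4
      have h5 : ∑ j, nd σ K k j * (X (π m) - X' m) j =
          ∑ j, nd σ K k j * X (π m) j - ∑ j, nd σ K k j * X' m j := by
        simp only [Pi.sub_apply, mul_sub, sum_sub_distrib]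
      rw [h5]
      exact h4)
  refine h2.trans ?_
  have : 0 ≤ ρ * η ^ α := by positivity
  nlinarith

end Pool.Agent.KRFW

end

section

/-!
# Hölder continuity of holomorphic tuples
-/

open Filter Topology

namespace Pool.Agent.KRFW

theorem norm_sum_mul_le {σ : Type} [Fintype σ] (u x : σ → ℂ) :
    ‖∑ j, u j * x j‖ ≤ Fintype.card σ * (‖u‖ * ‖x‖) := by
  calc ‖∑ j, u j * x j‖ ≤ ∑ j, ‖u j * x j‖ := norm_sum_le _ _
    _ ≤ ∑ _j : σ, ‖u‖ * ‖x‖ := by
        refine Finset.sum_le_sum fun j _ => ?_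
        rw [norm_mul]
        exact mul_le_mul (norm_le_pi_norm u j) (norm_le_pi_norm x j) (norm_nonneg _)
          (norm_nonneg _)
    _ = _ := by rw [Finset.sum_const, Finset.card_univ, nsmul_eq_mul]

/-- Cauchy estimate -/
theorem norm_sub_le_of_bdd {g : ℂ → ℂ} (hg : Differentiable ℂ g) {B : ℝ}
    (hB : ∀ s, ‖s‖ ≤ 3 → ‖g s‖ ≤ B) {s s' : ℂ} (hs : ‖s‖ ≤ 2) (hs' : ‖s'‖ ≤ 2) :
    ‖g s - g s'‖ ≤ B * ‖s - s'‖ := by
  refine Convex.norm_image_sub_le_of_norm_deriv_le (s := Metric.closedBall (0 : ℂ) 2)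
    (fun x _ => hg x) (fun x hx => ?_) (convex_closedBall 0 2) (mem_closedBall_zero_iff.2 hs')
    (mem_closedBall_zero_iff.2 hs)
  have h1 := Complex.norm_deriv_le_of_forall_mem_sphere_norm_le (c := x) (R := 1) one_pos
    hg.diffContOnCl (C := B) fun z hz => hB z (by
      have h2 : ‖z - x‖ = 1 := mem_sphere_iff_norm.1 hz
      have h3 : ‖x‖ ≤ 2 := mem_closedBall_zero_iff.1 hx
      calc ‖z‖ = ‖(z - x) + x‖ := by rw [sub_add_cancel]
        _ ≤ ‖z - x‖ + ‖x‖ := norm_add_le _ _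
        _ ≤ 3 := by linarith)
  rwa [div_one] at h1

theorem holder_tup (D : ℕ) (σ : Type) [Fintype σ] : ∃ α : ℝ, 0 < α ∧ ∀ R : ℝ, 1 ≤ R →
    ∃ C : ℝ, 0 ≤ C ∧ ∀ X : ℂ → Fin D → σ → ℂ, HolTup X → (∀ s, ‖s‖ ≤ 3 → ∀ m, ‖X s m‖ ≤ R) →
      ∀ s s', ‖s'‖ ≤ 1 → ‖s - s'‖ ≤ 1 →
        ∃ π : Equiv.Perm (Fin D), ∀ m, ‖X s (π m) - X s' m‖ ≤ C * ‖s - s'‖ ^ α := by
  obtain ⟨α, hα, hM⟩ := match_of_close D σ
  refine ⟨α, hα, fun R hR => ?_⟩
  obtain ⟨C, hC, hM⟩ := hM R hR
  have hR0 : 0 ≤ R := zero_le_one.trans hR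
  set B : ℝ := max 1 ((C + Fintype.card σ * (2 * R)) ^ D) with hB
  have hB1 : 1 ≤ B := le_max_left _ _
  have hB0 : 0 ≤ B := zero_le_one.trans hB1
  refine ⟨max C (2 * R) * B ^ α, by positivity, fun X hX hXR s s' hs' hss => ?_⟩
  have hs : ‖s‖ ≤ 2 := by
    calc ‖s‖ = ‖(s - s') + s'‖ := by rw [sub_add_cancel]
      _ ≤ ‖s - s'‖ + ‖s'‖ := norm_add_le _ _
      _ ≤ 2 := by linarith
  have hpow : (B * ‖s - s'‖) ^ α = B ^ α * ‖s - s'‖ ^ α := Real.mul_rpow hB0 (norm_nonneg _)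
  by_cases hη : B * ‖s - s'‖ ≤ 1
  · obtain ⟨π, hπ⟩ := hM (X s) (X s') (B * ‖s - s'‖) (by positivity) hη
      (hXR s (by linarith)) (hXR s' (by linarith)) fun u T hu hT => by
        refine norm_sub_le_of_bdd (hX u T) (fun z hz => ?_) hs (by linarith)
        refine le_trans ?_ (le_max_right _ _)
        rw [norm_prod]
        calc ∏ m, ‖T - ∑ j, u j * X z m j‖ ≤
            ∏ _m : Fin D, (C + Fintype.card σ * (2 * R)) := by
              refine Finset.prod_le_prod (fun m _ => norm_nonneg _) fun m _ => ?_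
              refine (norm_sub_le _ _).trans (add_le_add hT ?_)
              refine (norm_sum_mul_le _ _).trans ?_
              have := hXR z hz m
              gcongr
          _ = _ := by rw [Finset.prod_const, Finset.card_univ, Fintype.card_fin]
    refine ⟨π, fun m => (hπ m).trans ?_⟩
    rw [hpow, mul_assoc]
    exact mul_le_mul_of_nonneg_right (le_max_left _ _) (by positivity)
  · refine ⟨1, fun m => ?_⟩
    push Not at hη
    rw [mul_assoc, ← hpow]
    have h1 : (1 : ℝ) ≤ (B * ‖s - s'‖) ^ α := Real.one_le_rpow hη.le hα.le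
    calc ‖X s ((1 : Equiv.Perm (Fin D)) m) - X s' m‖ ≤ ‖X s m‖ + ‖X s' m‖ := norm_sub_le _ _
      _ ≤ R + R := add_le_add (hXR s (by linarith) m) (hXR s' (by linarith) m)
      _ = 2 * R * 1 := by ring
      _ ≤ max C (2 * R) * (B * ‖s - s'‖) ^ α :=
          mul_le_mul (le_max_right _ _) h1 zero_le_one (by positivity)

theorem cont_tup {D : ℕ} {σ : Type} [Fintype σ] {X : ℂ → Fin D → σ → ℂ} (hX : HolTup X)
    (hb : ∀ R : ℝ, ∃ C : ℝ, ∀ s, ‖s‖ ≤ R → ∀ m, ‖X s m‖ ≤ C) (s : ℂ) {ε : ℝ} (hε : 0 < ε) :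
    ∀ᶠ s' in 𝓝 s, ∃ π : Equiv.Perm (Fin D), ∀ m, ‖X s' (π m) - X s m‖ ≤ ε := by
  obtain ⟨α, hα, h1⟩ := holder_tup D σ
  obtain ⟨R, hR⟩ := hb (‖s‖ + 3)
  obtain ⟨C, hC, h2⟩ := h1 (max 1 R) (le_max_left _ _)
  have h3 := h2 (fun z => X (s + z)) (fun u T => by
    have := hX u T
    exact this.comp (differentiable_id.const_add s)) fun z hz m => (hR _ (by
      refine (norm_add_le _ _).trans ?_
      linarith) m).trans (le_max_right _ _)
  have h4 : Tendsto (fun s' : ℂ => C * ‖s' - s‖ ^ α) (𝓝 s) (𝓝 0) := by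
    have h5 : ContinuousAt (fun s' : ℂ => C * ‖s' - s‖ ^ α) s := by
      refine continuousAt_const.mul (ContinuousAt.rpow_const ?_ (Or.inr hα.le))
      fun_prop
    have h6 := h5.tendsto
    simpa [Real.zero_rpow hα.ne'] using h6
  filter_upwards [h4.eventually (ge_mem_nhds hε), Metric.ball_mem_nhds s one_pos] with s' h5 h6
  obtain ⟨π, hπ⟩ := h3 (s' - s) 0 (by simp) (by
    rw [sub_zero]
    exact (mem_ball_iff_norm.1 h6).le)
  refine ⟨π, fun m => ?_⟩
  have h7 := hπ m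
  simp only [add_sub_cancel, add_zero, sub_zero] at h7
  exact h7.trans h5

end Pool.Agent.KRFW

end

section

/-!
# The points of a cone are on lines through finitely many points (helper52)
-/

open MvPolynomial Filter Topology

namespace Pool.Agent.KRFW

open Pool.Agent.KRFAl (nr)

namespace Ln

theorem nn_eq_nr {L : ℕ} (x : Fin L → ℂ) : nn x = nr x := rfl

theorem sq_norm_le_nr {ι : Type} [Fintype ι] (v : ι → ℂ) : ‖v‖ ^ 2 ≤ nr v := by
  have h : ‖v‖ ≤ √(nr v) := by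
    refine (pi_norm_le_iff_of_nonneg (Real.sqrt_nonneg _)).2 fun i => ?_
    refine Real.le_sqrt_of_sq_le ?_
    exact Finset.single_le_sum (f := fun i => ‖v i‖ ^ 2) (fun j _ => by positivity)
      (Finset.mem_univ i)
  have h0 : 0 ≤ nr v := Finset.sum_nonneg fun _ _ => by positivity
  calc ‖v‖ ^ 2 ≤ √(nr v) ^ 2 := pow_le_pow_left₀ (norm_nonneg _) h 2
    _ = nr v := Real.sq_sqrt h0

theorem nr_le {ι : Type} [Fintype ι] {v : ι → ℂ} {B : ℝ} (hv : ∀ i, ‖v i‖ ≤ B) :
    nr v ≤ Fintype.card ι * B ^ 2 := by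
  unfold nr
  calc ∑ i, ‖v i‖ ^ 2 ≤ ∑ _i : ι, B ^ 2 :=
        Finset.sum_le_sum fun i _ => pow_le_pow_left₀ (norm_nonneg _) (hv i) 2
    _ = Fintype.card ι * B ^ 2 := by
        rw [Finset.sum_const, Finset.card_univ, nsmul_eq_mul]

theorem nr_nonneg {ι : Type} [Fintype ι] (v : ι → ℂ) : 0 ≤ nr v :=
  Finset.sum_nonneg fun _ _ => by positivity

theorem nr_smul {ι : Type} [Fintype ι] (c : ℂ) (v : ι → ℂ) : nr (c • v) = ‖c‖ ^ 2 * nr v := by
  unfold nr
  rw [Finset.mul_sum]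
  refine Finset.sum_congr rfl fun i _ => ?_
  rw [Pi.smul_apply, smul_eq_mul, norm_mul, mul_pow]

/-- the length of the points of an orthonormal line -/
theorem nr_line {ι : Type} [Fintype ι] {a₁ a₂ : ι → ℂ} (h₁ : nr a₁ = 1) (h₂ : nr a₂ = 1)
    (ho : ∑ i, starRingEnd ℂ (a₁ i) * a₂ i = 0) (s : ℂ) : nr (a₁ + s • a₂) = 1 + ‖s‖ ^ 2 := by
  have h : ∀ i, ‖(a₁ + s • a₂) i‖ ^ 2 = ‖a₁ i‖ ^ 2 + ‖s‖ ^ 2 * ‖a₂ i‖ ^ 2 +
      2 * (s * (starRingEnd ℂ (a₁ i) * a₂ i)).re := by
    intro i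
    rw [Pi.add_apply, Pi.smul_apply, smul_eq_mul, ← Complex.normSq_eq_norm_sq,
      Complex.normSq_add, Complex.normSq_eq_norm_sq, Complex.normSq_eq_norm_sq, norm_mul, mul_pow]
    congr 2
    rw [map_mul, ← Complex.conj_re]
    congr 1
    simp only [map_mul, Complex.conj_conj]
    ring
  unfold nr at *
  simp only [h, Finset.sum_add_distrib, ← Finset.mul_sum, h₁, h₂]
  rw [← Complex.re_sum, ← Finset.mul_sum, ho, mul_zero, Complex.zero_re]
  ring

theorem nl_le {k L D : ℕ} {ℓ : Fin k → Fin L → ℂ} (hk : k ≤ D) (hℓ : ∀ a j, ‖ℓ a j‖ ≤ D)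
    (v : Fin L → ℂ) : nl ℓ v ≤ D * (D * L) ^ 2 * nr v := by
  have h1 : ∀ a, ‖∑ j, ℓ a j * v j‖ ≤ D * L * ‖v‖ := by
    intro a
    refine (norm_sum_le _ _).trans ?_
    calc ∑ j, ‖ℓ a j * v j‖ ≤ ∑ _j : Fin L, (D : ℝ) * ‖v‖ := by
          refine Finset.sum_le_sum fun j _ => ?_
          rw [norm_mul]
          exact mul_le_mul (hℓ a j) (norm_le_pi_norm v j) (norm_nonneg _) (by positivity)
      _ = D * L * ‖v‖ := by
          rw [Finset.sum_const, Finset.card_univ, Fintype.card_fin, nsmul_eq_mul]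
          ring
  have h2 : nr (fun a => ∑ j, ℓ a j * v j) ≤ k * (D * L * ‖v‖) ^ 2 := by
    have := nr_le (v := fun a => ∑ j, ℓ a j * v j) h1
    rwa [Fintype.card_fin] at this
  have h4 := sq_norm_le_nr v
  have h5 : (k : ℝ) ≤ D := by exact_mod_cast hk
  calc nl ℓ v = nr (fun a => ∑ j, ℓ a j * v j) := rfl
    _ ≤ k * (D * L * ‖v‖) ^ 2 := h2
    _ = (k * (D * L) ^ 2) * ‖v‖ ^ 2 := by ring
    _ ≤ D * (D * L) ^ 2 * nr v := by
        refine mul_le_mul ?_ h4 (by positivity) (by positivity)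
        gcongr

end Ln

open Ln

/-- `exists_lines` from `sheets_deg` -/
theorem exists_lines_of (L d : ℕ) (hsheets : ∃ D₀ : ℕ,
    ∀ T : Set (MvPolynomial (Fin L) ℂ), (∀ Q ∈ T, Q.IsHomogeneous d) → ∃ r ≤ D₀,
      ∃ (k D : Fin r → ℕ)
      (ℓ : ∀ i, Fin (k i) → Fin L → ℂ) (Φ : ∀ i, MvPolynomial (Ix (k i) (Fin L)) ℂ),
      (∀ i, k i ≤ D₀ ∧ D i ≤ D₀) ∧ (∀ i a j, ‖ℓ i a j‖ ≤ D₀) ∧
      (∀ i w, ∃ X : Fin (D i) → Fin L → ℂ, IsTup (zeros T) (ℓ i) (Φ i) w X ∧
        ∀ m, ‖X m‖ ≤ D₀ * ‖w‖) ∧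
      ∀ x ∈ zeros T, ∃ i, ∀ c : ℂ, ∃ X : Fin (D i) → Fin L → ℂ,
        IsTup (zeros T) (ℓ i) (Φ i) (fun a => ∑ j, ℓ i a j * (c * x j)) X ∧
          ∃ m, X m = c • x) : ∃ (D₀ : ℕ) (C α : ℝ), 1 ≤ C ∧ 0 < α ∧
    ∀ T : Set (MvPolynomial (Fin L) ℂ), (∀ Q ∈ T, Q.IsHomogeneous d) →
      ∃ A : Finset (Fin L → ℂ), A.card ≤ D₀ ∧ (∀ a ∈ A, a ∈ zeros T ∧ a ≠ 0) ∧
        ∀ x ∈ zeros T, x ≠ 0 → (∃ a ∈ A, ∃ c : ℂ, c ≠ 0 ∧ a = c • x) ∨
          ∃ (D k : ℕ) (X : ℂ → Fin D → Fin L → ℂ) (ℓ : Fin k → Fin L → ℂ) (μ : ℝ) (s₀ s₁ : ℂ),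
            D ≤ D₀ ∧ IsLine (zeros T) C α X ℓ μ ∧ ‖s₀‖ ≤ 1 ∧ ‖s₁‖ ≤ 1 ∧
              (∀ m, X s₀ m ∈ A) ∧ ∃ m, ∃ c : ℂ, c ≠ 0 ∧ X s₁ m = c • x := by
  classical
  obtain ⟨D₀, hD₀⟩ := hsheets
  -- the constants
  set A₀ : ℝ := D₀ * (D₀ * L) ^ 2 with hA₀
  have hA0 : 0 ≤ A₀ := by positivity
  set R₁ : ℝ := max 1 (D₀ * 4) with hR₁
  choose α hα hα' using fun D : ℕ => holder_tup D (Fin L)
  choose Cα hCα hCα' using fun D : ℕ => hα' D R₁ (le_max_left _ _)
  have hne : (Finset.range (D₀ + 1)).Nonempty := ⟨0, by simp⟩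
  set α₀ : ℝ := (Finset.range (D₀ + 1)).inf' hne α with hα₀
  have hα₀0 : 0 < α₀ := by
    rw [hα₀, Finset.lt_inf'_iff]
    exact fun D _ => hα D
  set C₀ : ℝ := (Finset.range (D₀ + 1)).sup' hne Cα with hC₀
  have hC₀D : ∀ D ≤ D₀, Cα D ≤ C₀ := fun D hD =>
    Finset.le_sup' Cα (Finset.mem_range.2 (by omega))
  have hα₀D : ∀ D ≤ D₀, α₀ ≤ α D := fun D hD =>
    Finset.inf'_le α (Finset.mem_range.2 (by omega))
  have hC₀0 : 0 ≤ C₀ := (hCα 0).trans (hC₀D 0 (Nat.zero_le _))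
  set C : ℝ := 1 + C₀ + 2 * L * D₀ ^ 2 + 2 * A₀ with hC
  have hC1 : 1 ≤ C := by
    have : (0 : ℝ) ≤ 2 * L * D₀ ^ 2 := by positivity
    linarith
  have hC_A : 2 * A₀ ≤ C := by
    have : (0 : ℝ) ≤ 2 * L * D₀ ^ 2 := by positivity
    linarith
  have hC_L : 2 * L * D₀ ^ 2 ≤ C := by linarith
  have hC_C₀ : C₀ ≤ C := by
    have : (0 : ℝ) ≤ 2 * L * D₀ ^ 2 := by positivity
    linarith
  refine ⟨D₀ * D₀ + D₀, C, α₀, hC1, hα₀0, fun T hT => ?_⟩
  obtain ⟨r, hr, k, D, ℓ, Φ, hkD, hℓ, htup, hcov⟩ := hD₀ T hT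
  choose X hX hXb using htup
  -- the base vectors
  set v : ∀ i, Fin (k i) → ℂ := fun i a => if (a : ℕ) = 0 then 1 else 0 with hv
  set B : Finset (Fin L → ℂ) := Finset.univ.biUnion fun i : Fin r =>
    (Finset.univ.image (X i (v i))).filter (· ≠ 0) with hB
  have hlin : ∀ (i : Fin r) (x : Fin L → ℂ) (c : ℂ),
      (fun a => ∑ j, ℓ i a j * (c * x j)) = c • fun a => ∑ j, ℓ i a j * x j := by
    intro i x c
    funext a
    rw [Pi.smul_apply, smul_eq_mul, Finset.mul_sum]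
    refine Finset.sum_congr rfl fun j _ => ?_
    ring
  have huniq : ∀ (i : Fin r) (w : Fin (k i) → ℂ) (X' : Fin (D i) → Fin L → ℂ),
      IsTup (zeros T) (ℓ i) (Φ i) w X' → ∀ m, ∃ m', X' m = X i w m' := by
    intro i w X' hX' m
    refine tup_unique (fun u T => ?_) m
    rw [← hX'.prod, ← (hX i w).prod]
  refine ⟨B, ?_, ?_, ?_⟩
  · refine (Finset.card_biUnion_le).trans ?_
    calc ∑ i : Fin r, ((Finset.univ.image (X i (v i))).filter (· ≠ 0)).card
        ≤ ∑ _i : Fin r, D₀ := by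
          refine Finset.sum_le_sum fun i _ => ?_
          refine (Finset.card_filter_le _ _).trans (Finset.card_image_le.trans ?_)
          rw [Finset.card_univ, Fintype.card_fin]
          exact (hkD i).2
      _ = r * D₀ := by rw [Finset.sum_const, Finset.card_univ, Fintype.card_fin, smul_eq_mul]
      _ ≤ D₀ * D₀ + D₀ := (Nat.mul_le_mul_right _ hr).trans (Nat.le_add_right _ _)
  · intro b hb
    rw [hB, Finset.mem_biUnion] at hb
    obtain ⟨i, -, hb⟩ := hb
    rw [Finset.mem_filter, Finset.mem_image] at hb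
    obtain ⟨⟨m, -, rfl⟩, hb0⟩ := hb
    exact ⟨(hX i (v i)).mem m, hb0⟩
  · intro x hx hx0
    obtain ⟨i, hi⟩ := hcov x hx
    set w : Fin (k i) → ℂ := fun a => ∑ j, ℓ i a j * x j with hw
    -- `w` is not zero
    have hw0 : w ≠ 0 := by
      intro hw0
      obtain ⟨X', hX', m, hm⟩ := hi 1
      rw [hlin, one_smul, ← hw] at hX'
      obtain ⟨m', hm'⟩ := huniq i w X' hX' m
      have h1 := hXb i w m'
      rw [← hm', hm, one_smul, hw0, norm_zero, mul_zero] at h1
      exact hx0 (norm_le_zero_iff.1 h1)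
    have hkpos : 0 < k i := by
      by_contra h
      have h0 : k i = 0 := by omega
      apply hw0
      funext a
      exact absurd a.2 (by omega)
    have hv0 : v i ≠ 0 := by
      intro h
      have h1 := congrFun h ⟨0, hkpos⟩
      simp [hv] at h1
    have hnrv : nr (v i) = 1 := by
      unfold nr
      rw [Finset.sum_eq_single ⟨0, hkpos⟩]
      · simp [hv]
      · intro a _ ha
        have : (a : ℕ) ≠ 0 := fun h => ha (Fin.ext h)
        simp only [hv, if_neg this, norm_zero]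
        norm_num
      · intro h
        exact absurd (Finset.mem_univ _) h
    have hmemB : ∀ m, X i (v i) m ≠ 0 → X i (v i) m ∈ B := by
      intro m hm
      rw [hB, Finset.mem_biUnion]
      exact ⟨i, Finset.mem_univ _, Finset.mem_filter.2
        ⟨Finset.mem_image.2 ⟨m, Finset.mem_univ _, rfl⟩, hm⟩⟩
    by_cases hpar : ∃ a : ℂ, w = a • v i
    · left
      obtain ⟨a, ha⟩ := hpar
      have ha0 : a ≠ 0 := by
        rintro rfl
        exact hw0 (by rw [ha, zero_smul])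
      obtain ⟨X', hX', m, hm⟩ := hi a⁻¹
      rw [hlin, ← hw, ha, smul_smul, inv_mul_cancel₀ ha0, one_smul] at hX'
      obtain ⟨m', hm'⟩ := huniq i _ X' hX' m
      have h1 : X i (v i) m' = a⁻¹ • x := by rw [← hm', hm]
      refine ⟨X i (v i) m', hmemB m' ?_, a⁻¹, inv_ne_zero ha0, h1⟩
      rw [h1]
      exact smul_ne_zero (inv_ne_zero ha0) hx0
    · right
      push Not at hpar
      obtain ⟨a₁, a₂, s₀, s₁, b₀, b₁, h1, h2, ho, hs₀, hs₁, hb₀, hb₁, e₀, e₁⟩ :=
        KRFAl.lines (v i) w hv0 hw0 hpar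
      -- the size of `b₀`
      have hb₀K : ‖b₀‖ ^ 2 = 1 + ‖s₀‖ ^ 2 := by
        have h3 : ‖b₀‖ ^ 2 * nr (v i) = 1 + ‖s₀‖ ^ 2 := by
          rw [← nr_smul, ← e₀, nr_line h1 h2 ho]
        rwa [hnrv, mul_one] at h3
      have hb₀1 : 1 ≤ ‖b₀‖ := by
        have h3 : (1 : ℝ) ≤ ‖b₀‖ ^ 2 := by
          rw [hb₀K]
          exact le_add_of_nonneg_right (sq_nonneg _)
        exact (one_le_sq_iff₀ (norm_nonneg _)).1 h3
      have hb₀2 : ‖b₀‖ ^ 2 ≤ 2 := by
        have h3 : ‖s₀‖ ^ 2 ≤ 1 := pow_le_one₀ (norm_nonneg _) hs₀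
        rw [hb₀K]
        linarith
      have hb₀inv : ‖b₀⁻¹‖ ≤ 1 := by
        rw [norm_inv]
        exact inv_le_one_of_one_le₀ hb₀1
      set W : ℂ → Fin (k i) → ℂ := fun s => b₀⁻¹ • (a₁ + s • a₂) with hW
      set Z : ℂ → Fin (D i) → Fin L → ℂ := fun s => X i (W s) with hZ
      have hna₁ : ‖a₁‖ ≤ 1 := by
        have := sq_norm_le_nr a₁
        rw [h1] at this
        exact (sq_le_one_iff₀ (norm_nonneg _)).1 this
      have hna₂ : ‖a₂‖ ≤ 1 := by
        have := sq_norm_le_nr a₂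
        rw [h2] at this
        exact (sq_le_one_iff₀ (norm_nonneg _)).1 this
      have hWb : ∀ s, ‖W s‖ ≤ 1 + ‖s‖ := by
        intro s
        have h3 : ‖a₁ + s • a₂‖ ≤ 1 + ‖s‖ := by
          refine (norm_add_le _ _).trans (add_le_add hna₁ ?_)
          rw [norm_smul]
          exact mul_le_of_le_one_right (norm_nonneg _) hna₂
        have h4 : ‖W s‖ = ‖b₀⁻¹‖ * ‖a₁ + s • a₂‖ := norm_smul _ _
        rw [h4]
        exact (mul_le_of_le_one_left (norm_nonneg _) hb₀inv).trans h3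
      have hZb : ∀ s m, ‖Z s m‖ ≤ D₀ * (1 + ‖s‖) := fun s m =>
        (hXb i (W s) m).trans (mul_le_mul_of_nonneg_left (hWb s) (by positivity))
      have hHol : HolTup Z := by
        intro u T
        have h3 : (fun s => ∏ m, (T - ∑ j, u j * Z s m j)) =
            fun s => eval (pt (W s) u T) (Φ i) := by
          funext s
          rw [(hX i (W s)).prod]
        rw [h3]
        have h4 : ∀ P : MvPolynomial (Ix (k i) (Fin L)) ℂ,
            Differentiable ℂ fun s => eval (pt (W s) u T) P := by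
          intro P
          induction P using MvPolynomial.induction_on with
          | C a => simp
          | add p q hp hq =>
            simp only [map_add]
            exact hp.add hq
          | mul_X p j hp =>
            simp only [map_mul, eval_X]
            refine hp.mul ?_
            rcases j with a | j | j
            · have : (fun s => pt (W s) u T (Sum.inl a)) =
                  fun s => b₀⁻¹ * (a₁ a + s * a₂ a) := by
                funext s
                rfl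
              rw [this]
              fun_prop
            · exact differentiable_const _
            · exact differentiable_const _
        exact h4 _
      have hDi : D i ≤ D₀ := (hkD i).2
      have hform : ∀ s m, nl (ℓ i) (Z s m) = (‖b₀‖ ^ 2)⁻¹ * (1 + ‖s‖ ^ 2) := by
        intro s m
        have h4 : (fun a => ∑ j, ℓ i a j * Z s m j) = W s :=
          funext fun a => (hX i (W s)).proj m a
        have h5 : nl (ℓ i) (Z s m) = nr (W s) := by
          rw [← h4]
          rfl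
        rw [h5]
        show nr (b₀⁻¹ • (a₁ + s • a₂)) = _
        rw [nr_smul, nr_line h1 h2 ho, norm_inv, inv_pow]
      have hμ2 : (1 : ℝ) / 2 ≤ (‖b₀‖ ^ 2)⁻¹ := by
        rw [one_div]
        exact inv_anti₀ (by positivity) hb₀2
      have hμ1 : (‖b₀‖ ^ 2)⁻¹ ≤ 1 := inv_le_one_of_one_le₀ (one_le_pow₀ hb₀1)
      have hform_le : ∀ u, nl (ℓ i) u ≤ A₀ * nn u := fun u => nl_le (hkD i).1 (hℓ i) u
      refine ⟨D i, k i, Z, ℓ i, (‖b₀‖ ^ 2)⁻¹, s₀, s₁, by omega, ?_, hs₀, hs₁, ?_, ?_⟩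
      · refine ⟨hHol, fun s m => (hX i (W s)).mem m, fun s m => ?_, fun s m => ?_, ⟨hμ2, hμ1⟩,
          hform, fun u => (hform_le u).trans ?_, ?_⟩
        · have h4 : ∀ j, ‖Z s m j‖ ≤ D₀ * (1 + ‖s‖) := fun j =>
            (norm_le_pi_norm _ j).trans (hZb s m)
          have h5 := nr_le h4
          rw [Fintype.card_fin] at h5
          calc nn (Z s m) ≤ (L : ℝ) * (D₀ * (1 + ‖s‖)) ^ 2 := h5
            _ = L * D₀ ^ 2 * (1 + ‖s‖) ^ 2 := by ring
            _ ≤ L * D₀ ^ 2 * (2 * (1 + ‖s‖ ^ 2)) := by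
                refine mul_le_mul_of_nonneg_left ?_ (by positivity)
                linarith [sq_nonneg (1 - ‖s‖)]
            _ = 2 * L * D₀ ^ 2 * (1 + ‖s‖ ^ 2) := by ring
            _ ≤ C * (1 + ‖s‖ ^ 2) := mul_le_mul_of_nonneg_right hC_L (by positivity)
        · have h4 := hform_le (Z s m)
          rw [hform] at h4
          have h5 : 0 ≤ nn (Z s m) := nr_nonneg _
          have h6 : (0 : ℝ) ≤ 1 + ‖s‖ ^ 2 := by positivity
          have h7 := mul_le_mul_of_nonneg_right hμ2 h6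
          have h8 := mul_le_mul_of_nonneg_right hC_A h5
          linarith
        · refine mul_le_mul_of_nonneg_right ?_ (nr_nonneg u)
          linarith
        · intro s s' hs' hss'
          have h3 : ∀ s, ‖s‖ ≤ 3 → ∀ m, ‖Z s m‖ ≤ R₁ := by
            intro s hs m
            refine (hZb s m).trans (le_trans ?_ (le_max_right _ _))
            gcongr
            linarith
          obtain ⟨σ, hσ⟩ := hCα' (D i) Z hHol h3 s s' hs' hss'
          refine ⟨σ, fun m => (hσ m).trans ?_⟩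
          have h4 : ‖s - s'‖ ^ α (D i) ≤ ‖s - s'‖ ^ α₀ :=
            Real.rpow_le_rpow_of_exponent_ge_of_imp (norm_nonneg _) hss' (hα₀D _ hDi)
              fun _ h => absurd h (hα₀0.trans_le (hα₀D _ hDi)).ne'
          exact mul_le_mul ((hC₀D _ hDi).trans hC_C₀) h4 (by positivity) (by linarith)
      · intro m
        have hWs : W s₀ = v i := by
          show b₀⁻¹ • (a₁ + s₀ • a₂) = v i
          rw [e₀, smul_smul, inv_mul_cancel₀ hb₀, one_smul]
        have h3 : Z s₀ m = X i (v i) m := by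
          show X i (W s₀) m = _
          rw [hWs]
        rw [h3]
        refine hmemB m fun h0 => ?_
        have h4 := (hX i (v i)).proj m
        apply hv0
        funext a
        rw [← h4 a, h0]
        simp
      · have hc0 : b₀⁻¹ * b₁ ≠ 0 := mul_ne_zero (inv_ne_zero hb₀) hb₁
        obtain ⟨X', hX', m, hm⟩ := hi (b₀⁻¹ * b₁)
        have hWs : (b₀⁻¹ * b₁) • w = W s₁ := by
          show _ = b₀⁻¹ • (a₁ + s₁ • a₂)
          rw [e₁, smul_smul]
        rw [hlin, ← hw, hWs] at hX'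
        obtain ⟨m', hm'⟩ := huniq i _ X' hX' m
        refine ⟨m', b₀⁻¹ * b₁, hc0, ?_⟩
        show X i (W s₁) m' = _
        rw [← hm', hm]

end Pool.Agent.KRFW

end

section

/-!
# Lines through finitely many points of a cone
-/

namespace Pool.Agent.KRFW

/-- Every point of the cone `zeros T` is, up to a factor, one of finitely many points or on a line
through them. -/
theorem exists_lines (L d : ℕ) : ∃ (D₀ : ℕ) (C α : ℝ), 1 ≤ C ∧ 0 < α ∧
    ∀ T : Set (MvPolynomial (Fin L) ℂ), (∀ Q ∈ T, Q.IsHomogeneous d) →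
      ∃ A : Finset (Fin L → ℂ), A.card ≤ D₀ ∧ (∀ a ∈ A, a ∈ zeros T ∧ a ≠ 0) ∧
        ∀ x ∈ zeros T, x ≠ 0 → (∃ a ∈ A, ∃ c : ℂ, c ≠ 0 ∧ a = c • x) ∨
          ∃ (D k : ℕ) (X : ℂ → Fin D → Fin L → ℂ) (ℓ : Fin k → Fin L → ℂ) (μ : ℝ) (s₀ s₁ : ℂ),
            D ≤ D₀ ∧ IsLine (zeros T) C α X ℓ μ ∧ ‖s₀‖ ≤ 1 ∧ ‖s₁‖ ≤ 1 ∧
              (∀ m, X s₀ m ∈ A) ∧ ∃ m, ∃ c : ℂ, c ≠ 0 ∧ X s₁ m = c • x :=
  exists_lines_of L d (sheets_deg (Fin L) d)

end Pool.Agent.KRFW

end

section

/-!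
# Symmetric functions of the roots; the discrete set where the number of points drops
-/

open MvPolynomial Filter Topology

namespace Pool.Agent.KRFW

/-! ## symmetric functions of the roots are holomorphic -/

lemma prod_sub_coeff {D : ℕ} (T : Fin D → ℂ) {k : ℕ} (hk : k ≤ D) :
    (∏ m, (Polynomial.X - Polynomial.C (T m))).coeff (D - k) =
      (-1) ^ k * (Finset.univ.val.map T).esymm k := by
  have h := Multiset.prod_X_sub_C_coeff (Finset.univ.val.map T) (k := D - k) (by simp)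
  rw [Multiset.map_map] at h
  have h1 : (∏ m, (Polynomial.X - Polynomial.C (T m))) =
      (Multiset.map ((fun t => Polynomial.X - Polynomial.C t) ∘ T) Finset.univ.val).prod := rfl
  rw [h1, h]
  simp only [Multiset.card_map, Finset.card_val, Finset.card_univ, Fintype.card_fin]
  rw [Nat.sub_sub_self hk]

/-- the coefficients of a product of linear factors are linear combinations of its values
at the points `0, 1, .., D` -/
lemma prod_coeff_interp {D : ℕ} (T : Fin D → ℂ) (k : ℕ) :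
    (∏ m, (Polynomial.X - Polynomial.C (T m))).coeff k =
      ∑ i ∈ Finset.range (D + 1), (∏ m, ((i : ℂ) - T m)) *
        (Lagrange.basis (Finset.range (D + 1)) (fun i : ℕ => (i : ℂ)) i).coeff k := by
  set P : Polynomial ℂ := ∏ m, (Polynomial.X - Polynomial.C (T m)) with hP
  have hinj : Set.InjOn (fun i : ℕ => (i : ℂ)) (Finset.range (D + 1)) :=
    fun a _ b _ hab => Nat.cast_injective hab
  have hdeg : P.degree < (Finset.range (D + 1)).card := by
    rw [Finset.card_range, hP, Polynomial.degree_prod]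
    simp only [Polynomial.degree_X_sub_C, Finset.sum_const, Finset.card_univ, Fintype.card_fin,
      nsmul_eq_mul, mul_one]
    exact_mod_cast Nat.lt_succ_self D
  have h := Lagrange.eq_interpolate_of_eval_eq (s := Finset.range (D + 1))
    (v := fun i : ℕ => (i : ℂ)) (f := P) (fun i : ℕ => ∏ m, ((i : ℂ) - T m)) hinj hdeg (by
      intro i _
      rw [hP, Polynomial.eval_prod]
      simp)
  rw [h]
  simp only [Lagrange.interpolate_apply, Polynomial.finsetSum_coeff, Polynomial.coeff_C_mul]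

lemma differentiable_esymm {D : ℕ} {T : ℂ → Fin D → ℂ}
    (hT : ∀ t, Differentiable ℂ fun s => ∏ m, (t - T s m)) (k : ℕ) :
    Differentiable ℂ fun s => (Finset.univ.val.map (T s)).esymm k := by
  by_cases hk : k ≤ D
  · have h1 : (fun s => (Finset.univ.val.map (T s)).esymm k) = fun s =>
        (-1) ^ k * ∑ i ∈ Finset.range (D + 1), (∏ m, ((i : ℂ) - T s m)) *
        (Lagrange.basis (Finset.range (D + 1)) (fun i : ℕ => (i : ℂ)) i).coeff (D - k) := by
      funext s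
      rw [← prod_coeff_interp, prod_sub_coeff (T s) hk, ← mul_assoc, ← mul_pow]
      simp
    rw [h1]
    apply Differentiable.const_mul
    apply Differentiable.fun_sum
    intro i _
    exact (hT i).mul_const _
  · have h1 : (fun s => (Finset.univ.val.map (T s)).esymm k) = fun _ => 0 := by
      funext s
      rw [Multiset.esymm, Multiset.powersetCard_eq_empty]
      · simp
      · simpa using hk
    rw [h1]
    exact differentiable_const 0

/-- a polynomial expression in differentiable functions -/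
lemma differentiable_eval {ι : Type} {f : ι → ℂ → ℂ} (hf : ∀ i, Differentiable ℂ (f i))
    (Q : MvPolynomial ι ℂ) : Differentiable ℂ fun s => eval (fun i => f i s) Q := by
  induction Q using MvPolynomial.induction_on with
  | C a => simp
  | add p q hp hq =>
    have h : (fun s => eval (fun i => f i s) (p + q)) =
        fun s => eval (fun i => f i s) p + eval (fun i => f i s) q := by
      funext s
      simp
    rw [h]
    exact hp.fun_add hq
  | mul_X p i hp =>
    have h : (fun s => eval (fun i => f i s) (p * X i)) =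
        fun s => eval (fun i => f i s) p * f i s := by
      funext s
      simp
    rw [h]
    exact hp.fun_mul (hf i)

lemma eval_aeval' {ι κ : Type} (x : κ → ℂ) (g : ι → MvPolynomial κ ℂ) (Q : MvPolynomial ι ℂ) :
    eval x (aeval g Q) = eval (fun i => eval x (g i)) Q := by
  induction Q using MvPolynomial.induction_on with
  | C a => simp
  | add p q hp hq => rw [map_add, map_add, map_add, hp, hq]
  | mul_X p i hp => rw [map_mul, map_mul, map_mul, hp, aeval_X, eval_X]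

/-- symmetric functions of the roots are holomorphic -/
theorem differentiable_symm {D : ℕ} {T : ℂ → Fin D → ℂ}
    (hT : ∀ t, Differentiable ℂ fun s => ∏ m, (t - T s m)) (G : MvPolynomial (Fin D) ℂ)
    (hG : G.IsSymmetric) : Differentiable ℂ fun s => eval (T s) G := by
  obtain ⟨Q, hQ⟩ := esymmAlgHom_surjective ℂ (σ := Fin D) (n := D) (by simp) ⟨G, hG⟩
  have hQ' : aeval (fun i : Fin D => esymm (Fin D) ℂ (i + 1)) Q = G := by
    rw [← esymmAlgHom_apply, hQ]
  have h1 : (fun s => eval (T s) G) = fun s =>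
      eval (fun i : Fin D => (Finset.univ.val.map (T s)).esymm (i + 1)) Q := by
    funext s
    rw [← hQ', eval_aeval']
    congr 1
    congr 1
    funext i
    rw [← aeval_esymm_eq_multiset_esymm (Fin D) ℂ, aeval_eq_eval]
  rw [h1]
  exact differentiable_eval (fun i => differentiable_esymm hT _) Q

/-! ## the discriminant polynomial for `r` points -/

/-- sum over the subsets with `r` elements of the product of all differences -/
noncomputable def disc (D r : ℕ) : MvPolynomial (Fin D) ℂ :=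
  ∑ S ∈ Finset.powersetCard r (Finset.univ : Finset (Fin D)),
    ∏ p ∈ S.offDiag, (X p.1 - X p.2)

lemma disc_symm (D r : ℕ) : (disc D r).IsSymmetric := by
  intro e
  unfold disc
  rw [map_sum]
  refine Finset.sum_bij' (fun S _ => S.map e.toEmbedding) (fun S _ => S.map e.symm.toEmbedding)
    ?_ ?_ ?_ ?_ ?_
  · intro S hS
    simp only [Finset.mem_powersetCard_univ, Finset.card_map] at hS ⊢
    exact hS
  · intro S hS
    simp only [Finset.mem_powersetCard_univ, Finset.card_map] at hS ⊢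
    exact hS
  · intro S _
    ext x
    simp
  · intro S _
    ext x
    simp
  · intro S _
    rw [map_prod]
    refine Finset.prod_bij (fun p _ => (e p.1, e p.2)) ?_ ?_ ?_ ?_
    · intro p hp
      simp only [Finset.mem_offDiag, Finset.mem_map_equiv, Equiv.symm_apply_apply] at hp ⊢
      exact ⟨hp.1, hp.2.1, fun h => hp.2.2 (e.injective h)⟩
    · intro p _ q _ h
      simp only [Prod.mk.injEq, EmbeddingLike.apply_eq_iff_eq] at h
      exact Prod.ext h.1 h.2
    · intro q hq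
      simp only [Finset.mem_offDiag, Finset.mem_map_equiv] at hq
      refine ⟨(e.symm q.1, e.symm q.2), ?_, by simp⟩
      simp only [Finset.mem_offDiag]
      exact ⟨hq.1, hq.2.1, fun h => hq.2.2 (e.symm.injective h)⟩
    · intro p _
      simp

lemma eval_disc {D : ℕ} (r : ℕ) (t : Fin D → ℂ) : eval t (disc D r) =
    ∑ S ∈ Finset.powersetCard r (Finset.univ : Finset (Fin D)),
      ∏ p ∈ S.offDiag, (t p.1 - t p.2) := by
  unfold disc
  simp [map_sum, map_prod]

lemma prod_offDiag_eq_zero {D : ℕ} {t : Fin D → ℂ} {S : Finset (Fin D)}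
    (h : ¬ Set.InjOn t S) : ∏ p ∈ S.offDiag, (t p.1 - t p.2) = 0 := by
  unfold Set.InjOn at h
  push Not at h
  obtain ⟨a, ha, b, hb, hab, hne⟩ := h
  exact Finset.prod_eq_zero (i := (a, b)) (Finset.mem_offDiag.2 ⟨ha, hb, hne⟩) (by simp [hab])

/-- if the discriminant does not vanish, there are at least `r` values -/
lemma exists_injOn_of_disc {D r : ℕ} {t : Fin D → ℂ} (h : eval t (disc D r) ≠ 0) :
    ∃ S : Finset (Fin D), S.card = r ∧ Set.InjOn t S := by
  by_contra hcon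
  push Not at hcon
  apply h
  rw [eval_disc]
  apply Finset.sum_eq_zero
  intro S hS
  exact prod_offDiag_eq_zero (hcon S (Finset.mem_powersetCard_univ.1 hS))

/-- if there are exactly `r` values, the discriminant does not vanish -/
lemma disc_ne_zero {D r : ℕ} {t : Fin D → ℂ} (h : (Finset.univ.image t).card = r) :
    eval t (disc D r) ≠ 0 := by
  classical
  set P₀ : ℂ := ∏ q ∈ (Finset.univ.image t).offDiag, (q.1 - q.2) with hP₀
  have hP : P₀ ≠ 0 := by
    rw [hP₀]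
    apply Finset.prod_ne_zero_iff.2
    intro q hq
    exact sub_ne_zero.2 (Finset.mem_offDiag.1 hq).2.2
  have hterm : ∀ S ∈ Finset.powersetCard r (Finset.univ : Finset (Fin D)),
      ∏ p ∈ S.offDiag, (t p.1 - t p.2) = if Set.InjOn t S then P₀ else 0 := by
    intro S hS
    split_ifs with hinj
    · have himg : S.image t = Finset.univ.image t := by
        apply Finset.eq_of_subset_of_card_le
        · exact Finset.image_subset_image (Finset.subset_univ S)
        · rw [h, Finset.card_image_of_injOn hinj, Finset.mem_powersetCard_univ.1 hS]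
      rw [hP₀, ← himg]
      refine Finset.prod_bij (fun p _ => (t p.1, t p.2)) ?_ ?_ ?_ ?_
      · intro p hp
        simp only [Finset.mem_offDiag] at hp ⊢
        exact ⟨Finset.mem_image_of_mem t hp.1, Finset.mem_image_of_mem t hp.2.1,
          fun he => hp.2.2 (hinj hp.1 hp.2.1 he)⟩
      · intro p hp q hq he
        simp only [Finset.mem_offDiag] at hp hq
        simp only [Prod.mk.injEq] at he
        exact Prod.ext (hinj hp.1 hq.1 he.1) (hinj hp.2.1 hq.2.1 he.2)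
      · intro q hq
        simp only [Finset.mem_offDiag, Finset.mem_image] at hq
        obtain ⟨⟨a, ha, haq⟩, ⟨b, hb, hbq⟩, hne⟩ := hq
        refine ⟨(a, b), ?_, by simp [haq, hbq]⟩
        simp only [Finset.mem_offDiag]
        refine ⟨ha, hb, ?_⟩
        rintro rfl
        exact hne (haq.symm.trans hbq)
      · intro p _
        rfl
    · exact prod_offDiag_eq_zero hinj
  rw [eval_disc, Finset.sum_congr rfl hterm, ← Finset.sum_filter, Finset.sum_const, nsmul_eq_mul]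
  apply mul_ne_zero _ hP
  rw [Nat.cast_ne_zero, ← Nat.pos_iff_ne_zero, Finset.card_pos]
  -- a section of `t`
  obtain ⟨S, _, hSi, hSt⟩ := Finset.exists_subset_injOn_image_eq_of_surjOn
    (Finset.univ : Finset (Fin D)) (Finset.univ.image t) (f := t) (by
      intro y hy
      obtain ⟨x, _, rfl⟩ := Finset.mem_image.1 hy
      exact ⟨x, by simp, rfl⟩)
  refine ⟨S, ?_⟩
  rw [Finset.mem_filter, Finset.mem_powersetCard_univ]
  refine ⟨?_, hSi⟩
  rw [← h, ← hSt, Finset.card_image_of_injOn hSi]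

/-- a linear form which separates finitely many points -/
lemma exists_separating {σ : Type} [Fintype σ] (F : Finset (σ → ℂ)) : ∃ u : σ → ℂ,
    ∀ x ∈ F, ∀ y ∈ F, ∑ j, u j * x j = ∑ j, u j * y j → x = y := by
  classical
  set P : MvPolynomial σ ℂ := ∏ p ∈ F.offDiag, ∑ j, X j * C (p.1 j - p.2 j) with hP
  have hP0 : P ≠ 0 := by
    rw [hP]
    apply Finset.prod_ne_zero_iff.2
    intro p hp h0
    obtain ⟨_, _, hne⟩ := Finset.mem_offDiag.1 hp
    apply hne
    funext j0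
    have h1 := congrArg (eval (Pi.single j0 (1 : ℂ))) h0
    rw [map_sum, map_zero, Finset.sum_eq_single j0] at h1
    · simp only [map_mul, eval_X, Pi.single_eq_same, one_mul, eval_C] at h1
      exact sub_eq_zero.1 h1
    · intro j _ hj
      simp [hj]
    · intro h
      exact absurd (Finset.mem_univ _) h
  obtain ⟨u, hu⟩ : ∃ u : σ → ℂ, eval u P ≠ 0 := by
    by_contra hcon
    push Not at hcon
    exact hP0 (MvPolynomial.funext fun x => by rw [hcon x, map_zero])
  refine ⟨u, ?_⟩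
  intro x hx y hy hxy
  by_contra hne
  apply hu
  rw [hP, map_prod]
  apply Finset.prod_eq_zero (i := (x, y)) (Finset.mem_offDiag.2 ⟨hx, hy, hne⟩)
  rw [map_sum]
  simp only [map_mul, eval_X, eval_C, mul_sub, Finset.sum_sub_distrib]
  rw [hxy, sub_self]

/-- off a discrete set the number of points of the tuple is maximal -/
theorem exists_discrete {D : ℕ} {σ : Type} [Fintype σ] {X : ℂ → Fin D → σ → ℂ} (hX : HolTup X) :
    ∃ (E : Set ℂ) (r : ℕ), (∀ s, ∃ δ > 0, ∀ s' ∈ E, s' ≠ s → δ ≤ ‖s' - s‖) ∧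
      (∀ s, (Set.range (X s)).ncard ≤ r) ∧ ∀ s ∉ E, (Set.range (X s)).ncard = r := by
  classical
  have hcard : ∀ s, (Set.range (X s)).ncard = (Finset.univ.image (X s)).card := by
    intro s
    rw [← Set.ncard_coe_finset]
    congr 1
    simp
  have hbd : ∀ s, (Set.range (X s)).ncard ≤ D := by
    intro s
    rw [hcard]
    refine Finset.card_image_le.trans ?_
    simp
  -- the maximal number of points
  obtain ⟨s₀, hs₀⟩ : ∃ s₀, ∀ s, (Set.range (X s)).ncard ≤ (Set.range (X s₀)).ncard := by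
    have hne : (Set.range fun s => (Set.range (X s)).ncard).Nonempty := Set.range_nonempty _
    have hbdd : BddAbove (Set.range fun s => (Set.range (X s)).ncard) := by
      refine ⟨D, ?_⟩
      rintro _ ⟨s, rfl⟩
      exact hbd s
    obtain ⟨s₀, h0⟩ := Nat.sSup_mem hne hbdd
    refine ⟨s₀, fun s => ?_⟩
    simp only at h0
    rw [h0]
    exact le_csSup hbdd ⟨s, rfl⟩
  set r := (Set.range (X s₀)).ncard with hr
  obtain ⟨u, hu⟩ := exists_separating (Finset.univ.image (X s₀))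
  set T : ℂ → Fin D → ℂ := fun s m => ∑ j, u j * X s m j with hT
  set Δ : ℂ → ℂ := fun s => eval (T s) (disc D r) with hΔ
  have hΔd : Differentiable ℂ Δ := differentiable_symm (fun t => hX u t) _ (disc_symm D r)
  have hΔ0 : Δ s₀ ≠ 0 := by
    apply disc_ne_zero
    rw [hr, hcard]
    have : Finset.univ.image (T s₀) =
        (Finset.univ.image (X s₀)).image (fun x => ∑ j, u j * x j) := by
      rw [Finset.image_image]
      rfl
    rw [this]
    apply Finset.card_image_of_injOn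
    intro x hx y hy hxy
    exact hu x hx y hy hxy
  have hΔr : ∀ s, Δ s ≠ 0 → (Set.range (X s)).ncard = r := by
    intro s hs
    apply le_antisymm (hs₀ s)
    obtain ⟨S, hS, hSi⟩ := exists_injOn_of_disc hs
    rw [hcard, ← hS]
    have hSi' : Set.InjOn (X s) S := by
      intro a ha b hb hab
      apply hSi ha hb
      simp only [hT, hab]
    rw [← Finset.card_image_of_injOn hSi']
    exact Finset.card_le_card (Finset.image_subset_image (Finset.subset_univ S))
  refine ⟨{s | Δ s = 0}, r, ?_, hs₀, fun s hs => hΔr s hs⟩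
  intro s
  have han : AnalyticOnNhd ℂ Δ Set.univ := by
    rw [Complex.analyticOnNhd_univ_iff_differentiable]
    exact hΔd
  rcases (han s (Set.mem_univ _)).eventually_eq_zero_or_eventually_ne_zero with h | h
  · exfalso
    have := han.eqOn_zero_of_preconnected_of_eventuallyEq_zero isPreconnected_univ
      (Set.mem_univ s) h
    exact hΔ0 (this (Set.mem_univ s₀))
  · rw [eventually_nhdsWithin_iff, Metric.eventually_nhds_iff] at h
    obtain ⟨δ, hδ, hball⟩ := h
    refine ⟨δ, hδ, ?_⟩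
    intro s' hs' hne
    by_contra hlt
    push Not at hlt
    exact hball (by rw [dist_eq_norm]; exact hlt) hne hs'

end Pool.Agent.KRFW

end

section

/-!
# Local holomorphic sections of a holomorphic tuple
-/

open Filter Topology

namespace Pool.Agent.KRFW

/-! ## A zero of a family of polynomials -/

/-- `q b - q a = (b - a) * R` with `R` depending polynomially on everything -/
lemma eval_sub_eval (q : Polynomial ℂ) {n : ℕ} (hq : q.natDegree ≤ n) (a b : ℂ) :
    q.eval b - q.eval a = (b - a) * ∑ i ∈ Finset.range (n + 1), q.coeff i *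
      ∑ k ∈ Finset.range i, b ^ k * a ^ (i - 1 - k) := by
  rw [Polynomial.eval_eq_sum_range' (Nat.lt_succ_of_le hq),
    Polynomial.eval_eq_sum_range' (Nat.lt_succ_of_le hq), ← Finset.sum_sub_distrib,
    Finset.mul_sum]
  refine Finset.sum_congr rfl fun i _ => ?_
  rw [← mul_sub, mul_left_comm, (Commute.all b a).mul_geom_sum₂ i]

lemma eval_derivative_range (q : Polynomial ℂ) {n : ℕ} (hq : q.natDegree ≤ n) (a : ℂ) :
    q.derivative.eval a = ∑ i ∈ Finset.range (n + 1), q.coeff i *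
      ∑ k ∈ Finset.range i, a ^ k * a ^ (i - 1 - k) := by
  have h1 : q.derivative.eval a = ∑ i ∈ Finset.range (n + 1), q.coeff i * (i * a ^ (i - 1)) := by
    conv_lhs => rw [q.as_sum_range' (n + 1) (Nat.lt_succ_of_le hq)]
    rw [Polynomial.derivative_sum, Polynomial.eval_finset_sum]
    refine Finset.sum_congr rfl fun i _ => ?_
    rw [Polynomial.derivative_monomial, Polynomial.eval_monomial, mul_assoc]
  rw [h1]
  refine Finset.sum_congr rfl fun i _ => ?_
  congr 1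
  have h2 : ∀ k ∈ Finset.range i, a ^ k * a ^ (i - 1 - k) = a ^ (i - 1) := by
    intro k hk
    rw [← pow_add]
    congr 1
    have := Finset.mem_range.1 hk
    omega
  rw [Finset.sum_congr rfl h2, Finset.sum_const, Finset.card_range, nsmul_eq_mul]

/-- the product of a differentiable function which vanishes and a continuous function -/
lemma differentiableAt_mul_of_zero {h k : ℂ → ℂ} {s : ℂ} (hh : DifferentiableAt ℂ h s)
    (h0 : h s = 0) (hk : ContinuousAt k s) : DifferentiableAt ℂ (fun t => h t * k t) s := by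
  have h1 := hh.hasDerivAt
  refine HasDerivAt.differentiableAt (f' := deriv h s * k s) ?_
  rw [hasDerivAt_iff_tendsto_slope] at h1 ⊢
  have h2 : slope (fun t => h t * k t) s = fun t => slope h s t * k t := by
    funext t
    simp only [slope_def_field, h0, zero_mul, sub_zero]
    ring
  rw [h2]
  exact h1.mul (hk.tendsto.mono_left nhdsWithin_le_nhds)

/-- **Implicit differentiation.** -/
theorem differentiableAt_root {Q : ℂ → Polynomial ℂ} {n : ℕ} (hn : ∀ s, (Q s).natDegree ≤ n)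
    {v : ℂ → ℂ} {s : ℂ} (hQ : ∀ i, DifferentiableAt ℂ (fun t => (Q t).coeff i) s)
    (hv : ContinuousAt v s) (h0 : ∀ᶠ t in 𝓝 s, (Q t).eval (v t) = 0)
    (h1 : (Q s).derivative.eval (v s) ≠ 0) : DifferentiableAt ℂ v s := by
  set a := v s with ha
  let R : ℂ → ℂ := fun t => ∑ i ∈ Finset.range (n + 1), (Q t).coeff i *
      ∑ k ∈ Finset.range i, v t ^ k * a ^ (i - 1 - k)
  have hR : ContinuousAt R s := by
    refine tendsto_finset_sum _ fun i _ => ?_
    refine ((hQ i).continuousAt.tendsto).mul ?_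
    refine tendsto_finset_sum _ fun k _ => ?_
    exact (hv.tendsto.pow k).mul tendsto_const_nhds
  have hRs : R s ≠ 0 := by
    rw [eval_derivative_range (Q s) (hn s)] at h1
    exact h1
  have hRne : ∀ᶠ t in 𝓝 s, R t ≠ 0 := hR.eventually_ne hRs
  have hd : DifferentiableAt ℂ (fun t => (Q t).eval a) s := by
    have : (fun t => (Q t).eval a) = fun t => ∑ i ∈ Finset.range (n + 1), (Q t).coeff i * a ^ i := by
      funext t
      exact Polynomial.eval_eq_sum_range' (Nat.lt_succ_of_le (hn t)) a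
    rw [this]
    exact DifferentiableAt.fun_sum fun i _ => (hQ i).mul_const _
  have hz : (Q s).eval a = 0 := h0.self_of_nhds
  have h2 := differentiableAt_mul_of_zero hd hz (hR.inv₀ hRs)
  have h3 : v =ᶠ[𝓝 s] fun t => a - (Q t).eval a * (R t)⁻¹ := by
    filter_upwards [h0, hRne] with t ht hRt
    have h4 := eval_sub_eval (Q t) (hn t) a (v t)
    rw [ht, zero_sub] at h4
    have h5 : (Q t).eval a = -((v t - a) * R t) := by rw [← h4, neg_neg]
    rw [h5]
    field_simp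
    ring
  exact (h2.const_sub a).congr_of_eventuallyEq h3

/-! ## The characteristic polynomials -/

section Poly

variable {D : ℕ} {σ : Type} [Fintype σ]

/-- the polynomial with the roots `u · X s m` -/
noncomputable def chi (X : ℂ → Fin D → σ → ℂ) (u : σ → ℂ) (s : ℂ) : Polynomial ℂ :=
  ∏ m, (Polynomial.X - Polynomial.C (∑ j, u j * X s m j))

lemma chi_ne_zero (X : ℂ → Fin D → σ → ℂ) (u : σ → ℂ) (s : ℂ) : chi X u s ≠ 0 :=
  (Polynomial.monic_prod_of_monic _ _ fun _ _ => Polynomial.monic_X_sub_C _).ne_zero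

lemma natDegree_chi (X : ℂ → Fin D → σ → ℂ) (u : σ → ℂ) (s : ℂ) :
    (chi X u s).natDegree ≤ D := by
  unfold chi
  rw [Polynomial.natDegree_prod_of_monic _ _ fun _ _ => Polynomial.monic_X_sub_C _]
  refine (Finset.sum_le_sum fun m _ => (Polynomial.natDegree_X_sub_C _).le).trans ?_
  rw [Finset.sum_const, Finset.card_univ, Fintype.card_fin, smul_eq_mul, mul_one]

lemma differentiable_coeff_chi {X : ℂ → Fin D → σ → ℂ} (hX : HolTup X) (u : σ → ℂ) (i : ℕ) :
    Differentiable ℂ fun s => (chi X u s).coeff i := by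
  have h1 : (fun s => (chi X u s).coeff i) = fun s => ∑ t ∈ Finset.range (D + 1),
      (∏ m, ((t : ℂ) - ∑ j, u j * X s m j)) *
        (Lagrange.basis (Finset.range (D + 1)) (fun i : ℕ => (i : ℂ)) t).coeff i := by
    funext s
    exact prod_coeff_interp _ i
  rw [h1]
  exact Differentiable.fun_sum fun t _ => (hX u t).mul_const _

open Classical in
lemma rootMultiplicity_chi (X : ℂ → Fin D → σ → ℂ) (u : σ → ℂ) (s t : ℂ) :
    (chi X u s).rootMultiplicity t = (Finset.univ.filter fun m => t = ∑ j, u j * X s m j).card := by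
  rw [← Polynomial.count_roots]
  unfold chi
  have h1 : (∏ m, (Polynomial.X - Polynomial.C (∑ j, u j * X s m j))) =
      ((Finset.univ.val.map fun m => ∑ j, u j * X s m j).map
        fun a => Polynomial.X - Polynomial.C a).prod := by
    rw [Multiset.map_map]
    rfl
  rw [h1, Polynomial.roots_multiset_prod_X_sub_C, Multiset.count_map]
  rfl

end Poly

/-! ## Sections -/

theorem exists_sections {D : ℕ} {σ : Type} [Fintype σ] {X : ℂ → Fin D → σ → ℂ} (hX : HolTup X)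
    (hb : ∀ R : ℝ, ∃ C : ℝ, ∀ s, ‖s‖ ≤ R → ∀ m, ‖X s m‖ ≤ C) : ∃ E : Set ℂ,
      (∀ s, ∃ δ > 0, ∀ s' ∈ E, s' ≠ s → δ ≤ ‖s' - s‖) ∧ ∀ s ∉ E,
        ∃ r > 0, ∃ g : Fin D → ℂ → σ → ℂ, (∀ m, DifferentiableOn ℂ (g m) (Metric.ball s r)) ∧
          ∀ s' ∈ Metric.ball s r, ∃ π : Equiv.Perm (Fin D), ∀ m, X s' (π m) = g m s' := by
  classical
  obtain ⟨E, r0, hE, hle, heq⟩ := exists_discrete hX
  refine ⟨E, hE, fun s0 hs0 => ?_⟩
  -- separation
  obtain ⟨ε, hε, hsep⟩ : ∃ ε : ℝ, 0 < ε ∧ ∀ m m', X s0 m ≠ X s0 m' →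
      2 * ε < ‖X s0 m - X s0 m'‖ := by
    have h1 : ∀ m m' : Fin D, ∀ᶠ ε : ℝ in 𝓝[>] 0, X s0 m ≠ X s0 m' →
        2 * ε < ‖X s0 m - X s0 m'‖ := by
      intro m m'
      by_cases h : X s0 m = X s0 m'
      · exact Eventually.of_forall fun _ h' => absurd h h'
      · have h2 : 0 < ‖X s0 m - X s0 m'‖ := norm_pos_iff.2 (sub_ne_zero.2 h)
        have h3 : Tendsto (fun ε : ℝ => 2 * ε) (𝓝[>] 0) (𝓝 (2 * 0)) :=
          (tendsto_id.const_mul 2).mono_left nhdsWithin_le_nhds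
        rw [mul_zero] at h3
        filter_upwards [h3.eventually_lt_const h2] with ε hε _ using hε
    have h2 := (eventually_all.2 fun m => eventually_all.2 (h1 m)).and self_mem_nhdsWithin
    obtain ⟨ε, h3, h4⟩ := h2.exists
    exact ⟨ε, h4, h3⟩
  have hsep' : ∀ (p : σ → ℂ) (m m' : Fin D), ‖p - X s0 m‖ ≤ ε → ‖p - X s0 m'‖ ≤ ε →
      X s0 m = X s0 m' := by
    intro p m m' h1 h2
    by_contra h
    have h3 := hsep m m' h
    have h4 : ‖X s0 m - X s0 m'‖ ≤ ‖p - X s0 m‖ + ‖p - X s0 m'‖ := by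
      have : X s0 m - X s0 m' = (p - X s0 m') - (p - X s0 m) := by abel
      rw [this, add_comm]
      exact norm_sub_le _ _
    linarith
  -- the ball
  have h1 := cont_tup hX hb s0 (half_pos hε)
  obtain ⟨r, hr, hball⟩ := Metric.eventually_nhds_iff_ball.1 h1
  choose! π hπ using hball
  -- uniqueness
  have hU : ∀ s' ∈ Metric.ball s0 r, ∀ a m, ‖X s' a - X s0 m‖ ≤ ε → X s' a = X s' (π s' m) := by
    intro s' hs' a m ham
    let φ : (σ → ℂ) → (σ → ℂ) := fun p =>
      if h : ∃ m, ‖p - X s0 m‖ ≤ ε then X s0 h.choose else 0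
    have hφ : ∀ p m, ‖p - X s0 m‖ ≤ ε → φ p = X s0 m := by
      intro p m hpm
      have h : ∃ m, ‖p - X s0 m‖ ≤ ε := ⟨m, hpm⟩
      show (if h : ∃ m, ‖p - X s0 m‖ ≤ ε then X s0 h.choose else 0) = X s0 m
      rw [dif_pos h]
      exact hsep' p _ _ h.choose_spec hpm
    have h2 : Set.range (X s0) ⊆ φ '' Set.range (X s') := by
      rintro _ ⟨m, rfl⟩
      exact ⟨X s' (π s' m), ⟨_, rfl⟩, hφ _ _ ((hπ s' hs' m).trans (by linarith))⟩
    have hfin : (Set.range (X s')).Finite := Set.finite_range _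
    have h3 := Set.ncard_le_ncard h2 (hfin.image φ)
    have h4 := Set.ncard_image_le (f := φ) hfin
    have h5 := hle s'
    have h6 := heq s0 hs0
    have h7 : (φ '' Set.range (X s')).ncard = (Set.range (X s')).ncard := by omega
    have h8 := Set.injOn_of_ncard_image_eq h7 hfin
    refine h8 ⟨a, rfl⟩ ⟨_, rfl⟩ ?_
    rw [hφ _ m ham, hφ _ m ((hπ s' hs' m).trans (by linarith))]
  refine ⟨r, hr, fun m s' => X s' (π s' m), fun m => ?_, fun s' hs' => ⟨π s', fun m => rfl⟩⟩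
  -- continuity
  have hcont : ∀ s1 ∈ Metric.ball s0 r, ContinuousAt (fun s' => X s' (π s' m)) s1 := by
    intro s1 hs1
    rw [Metric.continuousAt_iff']
    intro η hη
    have h2 : 0 < min (η / 2) (ε / 2) := lt_min (half_pos hη) (half_pos hε)
    filter_upwards [cont_tup hX hb s1 h2, Metric.isOpen_ball.mem_nhds hs1] with s' hs' hs'b
    obtain ⟨ρ, hρ⟩ := hs'
    have h3 := hρ (π s1 m)
    have h4 : ‖X s' (ρ (π s1 m)) - X s0 m‖ ≤ ε := by
      have h5 : X s' (ρ (π s1 m)) - X s0 m =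
          (X s' (ρ (π s1 m)) - X s1 (π s1 m)) + (X s1 (π s1 m) - X s0 m) := by abel
      rw [h5]
      refine (norm_add_le _ _).trans ?_
      have h6 := hπ s1 hs1 m
      have h7 := h3.trans (min_le_right _ _)
      linarith
    have h5 := hU s' hs'b _ m h4
    rw [dist_eq_norm, ← h5]
    have h6 := h3.trans (min_le_left _ _)
    linarith
  -- differentiability of the linear forms
  have hlin : ∀ s1 ∈ Metric.ball s0 r, ∀ u : σ → ℂ,
      (∀ a b, ∑ j, u j * X s1 a j = ∑ j, u j * X s1 b j → X s1 a = X s1 b) →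
      DifferentiableAt ℂ (fun s' => ∑ j, u j * X s' (π s' m) j) s1 := by
    intro s1 hs1 u hu
    set μ := (Finset.univ.filter fun m' => X s0 m' = X s0 m).card with hμ
    have hμ0 : 0 < μ := Finset.card_pos.2 ⟨m, by simp⟩
    have hg : ∀ s' ∈ Metric.ball s0 r, ∀ m', X s0 m' = X s0 m → X s' (π s' m') = X s' (π s' m) := by
      intro s' hs' m' hm'
      refine hU s' hs' _ m ?_
      rw [← hm']
      exact (hπ s' hs' m').trans (by linarith)
    have hge : ∀ s' ∈ Metric.ball s0 r,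
        μ ≤ (chi X u s').rootMultiplicity (∑ j, u j * X s' (π s' m) j) := by
      intro s' hs'
      rw [rootMultiplicity_chi]
      refine Finset.card_le_card_of_injOn (fun m' => π s' m') ?_ ((π s').injective.injOn)
      intro m' hm'
      rw [Finset.coe_filter, Set.mem_setOf_eq] at hm' ⊢
      refine ⟨Finset.mem_univ _, ?_⟩
      rw [hg s' hs' m' hm'.2]
    have heq1 : (chi X u s1).rootMultiplicity (∑ j, u j * X s1 (π s1 m) j) = μ := by
      refine le_antisymm ?_ (hge s1 hs1)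
      rw [rootMultiplicity_chi]
      refine Finset.card_le_card_of_injOn (fun a => (π s1).symm a) ?_ ((π s1).symm.injective.injOn)
      intro a ha
      rw [Finset.coe_filter, Set.mem_setOf_eq] at ha ⊢
      refine ⟨Finset.mem_univ _, ?_⟩
      have h2 := hu _ _ ha.2
      have h3 := hπ s1 hs1 ((π s1).symm a)
      rw [Equiv.apply_symm_apply] at h3
      have h4 := hπ s1 hs1 m
      rw [h2] at h4
      exact hsep' (X s1 a) _ _ (h3.trans (by linarith)) (h4.trans (by linarith))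
    have h2 : ∀ s', (Polynomial.derivative^[μ - 1] (chi X u s')).natDegree ≤ D := fun s' =>
      (Polynomial.natDegree_iterate_derivative _ _).trans
        ((Nat.sub_le _ _).trans (natDegree_chi X u s'))
    refine differentiableAt_root (Q := fun s' => Polynomial.derivative^[μ - 1] (chi X u s')) h2
      ?_ ?_ ?_ ?_
    · intro i
      have h3 : (fun t => (Polynomial.derivative^[μ - 1] (chi X u t)).coeff i) = fun t =>
          (i + (μ - 1)).descFactorial (μ - 1) • (chi X u t).coeff (i + (μ - 1)) := by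
        funext t
        exact Polynomial.coeff_iterate_derivative _ _
      rw [h3]
      exact ((differentiable_coeff_chi hX u _) s1).const_smul _
    · refine tendsto_finset_sum _ fun j _ => ?_
      exact tendsto_const_nhds.mul ((continuousAt_pi.1 (hcont s1 hs1) j).tendsto)
    · filter_upwards [Metric.isOpen_ball.mem_nhds hs1] with t ht
      exact Polynomial.isRoot_iterate_derivative_of_lt_rootMultiplicity
        (lt_of_lt_of_le (by omega) (hge t ht))
    · have h3 : Polynomial.derivative (Polynomial.derivative^[μ - 1] (chi X u s1)) =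
          Polynomial.derivative^[μ] (chi X u s1) := by
        rw [← Function.iterate_succ_apply' Polynomial.derivative]
        congr 2
        omega
      rw [h3]
      have h4 := Polynomial.eval_iterate_derivative_rootMultiplicity (p := chi X u s1)
        (t := ∑ j, u j * X s1 (π s1 m) j)
      have h5 := Polynomial.eval_divByMonic_pow_rootMultiplicity_ne_zero
        (p := chi X u s1) (∑ j, u j * X s1 (π s1 m) j) (chi_ne_zero X u s1)
      rw [heq1] at h4 h5
      rw [h4, nsmul_eq_mul]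
      exact mul_ne_zero (Nat.cast_ne_zero.2 (Nat.factorial_ne_zero _)) h5
  -- all coordinates
  intro s1 hs1
  refine DifferentiableAt.differentiableWithinAt ?_
  rw [differentiableAt_pi]
  intro i
  obtain ⟨u, hu⟩ := exists_separating (Finset.univ.image (X s1))
  have hu' : ∀ a b, ∑ j, u j * X s1 a j = ∑ j, u j * X s1 b j → X s1 a = X s1 b :=
    fun a b h => hu _ (Finset.mem_image_of_mem _ (Finset.mem_univ _)) _
      (Finset.mem_image_of_mem _ (Finset.mem_univ _)) h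
  have hexp : ∀ (t : ℂ) (x : σ → ℂ), ∑ j, (u j + if j = i then t else 0) * x j =
      ∑ j, u j * x j + t * x i := by
    intro t x
    simp only [add_mul, Finset.sum_add_distrib, ite_mul, zero_mul, Finset.sum_ite_eq',
      Finset.mem_univ, if_true]
  obtain ⟨t, ht, ht0⟩ : ∃ t : ℂ, (∀ a b, X s1 a ≠ X s1 b →
      ∑ j, (u j + if j = i then t else 0) * X s1 a j ≠
        ∑ j, (u j + if j = i then t else 0) * X s1 b j) ∧ t ≠ 0 := by
    have h2 : ∀ a b : Fin D, ∀ᶠ t : ℂ in 𝓝[≠] 0, X s1 a ≠ X s1 b →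
        ∑ j, (u j + if j = i then t else 0) * X s1 a j ≠
          ∑ j, (u j + if j = i then t else 0) * X s1 b j := by
      intro a b
      by_cases h : X s1 a = X s1 b
      · exact Eventually.of_forall fun _ h' => absurd h h'
      · have h3 : (∑ j, u j * X s1 a j + 0 * X s1 a i) - (∑ j, u j * X s1 b j + 0 * X s1 b i) ≠ 0 := by
          rw [zero_mul, zero_mul, add_zero, add_zero]
          exact sub_ne_zero.2 fun h' => h (hu' a b h')
        have h4 : Continuous fun t : ℂ =>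
            (∑ j, u j * X s1 a j + t * X s1 a i) - (∑ j, u j * X s1 b j + t * X s1 b i) := by
          fun_prop
        have h5 := (h4.continuousAt (x := 0)).eventually_ne h3
        filter_upwards [h5.filter_mono nhdsWithin_le_nhds] with t ht _
        rw [hexp, hexp]
        exact sub_ne_zero.1 ht
    have h3 := (eventually_all.2 fun a => eventually_all.2 (h2 a)).and self_mem_nhdsWithin
    exact h3.exists
  have d1 := hlin s1 hs1 u hu'
  have d2 := hlin s1 hs1 (fun j => u j + if j = i then t else 0) fun a b h => by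
    by_contra hne
    exact ht a b hne h
  have h3 : (fun s' => X s' (π s' m) i) = fun s' => t⁻¹ *
      (∑ j, (u j + if j = i then t else 0) * X s' (π s' m) j - ∑ j, u j * X s' (π s' m) j) := by
    funext s'
    rw [hexp]
    field_simp
    ring
  rw [h3]
  exact (d2.sub d1).const_mul _

end Pool.Agent.KRFW

end
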